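import Pool.Agent.Q27.VRC.Data

/-! Elements of free groups are detected by virtual homomorphisms to `ℤ`. -/

namespace Q27.VR

universe u

open Function

/-- Extension of a partial injection of a finite set to a permutation. -/
theorem exists_perm_extend {S : Type*} [Finite S] {Q : Type*} (ι : S → Q)
    (hι : Injective ι) (σ : Equiv.Perm Q) :
    ∃ τ : Equiv.Perm S, ∀ s s' : S, ι s' = σ (ι s) → τ s = s' := by
  classical
  have hft : Fintype S := Fintype.ofFinite S
  let p : S → Prop := fun s => ∃ s', ι s' = σ (ι s)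
  let q : S → Prop := fun s' => ∃ s, ι s' = σ (ι s)
  let e : {s // p s} ≃ {s // q s} :=
    { toFun := fun s => ⟨s.2.choose, s.1, s.2.choose_spec⟩
      invFun := fun s => ⟨s.2.choose, s.1, s.2.choose_spec⟩
      left_inv := by
        rintro ⟨s, hs⟩
        apply Subtype.ext
        have h1 : ∃ s₂, ι hs.choose = σ (ι s₂) := ⟨s, hs.choose_spec⟩
        show h1.choose = s
        have h2 := h1.choose_spec
        exact (hι (σ.injective (hs.choose_spec.symm.trans h2))).symm
      right_inv := by
        rintro ⟨s, hs⟩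
        apply Subtype.ext
        have h1 : ∃ s₂, ι s₂ = σ (ι hs.choose) := ⟨s, hs.choose_spec⟩
        show h1.choose = s
        have h2 := h1.choose_spec
        exact hι (h2.trans hs.choose_spec.symm) }
  refine ⟨e.extendSubtype, fun s s' h => ?_⟩
  have hp : p s := ⟨s', h⟩
  rw [Equiv.extendSubtype_apply_of_mem e s hp]
  show hp.choose = s'
  apply hι
  rw [hp.choose_spec, h]

/-- the exponent homomorphism of an infinite cyclic subgroup -/
theorem exists_exp {G : Type u} [Group G] (y : G) (hy : ∀ n : ℤ, y ^ n = 1 → n = 0) :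
    ∃ e : Subgroup.zpowers y →* Multiplicative ℤ,
      e ⟨y, Subgroup.mem_zpowers y⟩ = Multiplicative.ofAdd 1 := by
  have hinj : ∀ m n : ℤ, y ^ m = y ^ n → m = n := by
    intro m n hmn
    have : y ^ (m - n) = 1 := by rw [zpow_sub, hmn, mul_inv_cancel]
    have := hy _ this
    omega
  choose e he using fun k : Subgroup.zpowers y => Subgroup.mem_zpowers_iff.1 k.2
  refine ⟨{ toFun := fun x => Multiplicative.ofAdd (e x)
            map_one' := ?_
            map_mul' := ?_ }, ?_⟩
  · rw [ofAdd_eq_one]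
    apply hinj
    rw [he, zpow_zero]
    rfl
  · intro x z
    rw [← ofAdd_add]
    congr 1
    apply hinj
    rw [he, zpow_add, he, he]
    rfl
  · change Multiplicative.ofAdd (e _) = _
    congr 1
    apply hinj
    rw [he, zpow_one]

/-- one permutation commuting with the shift -/
def pSW {Y : Type u} (π : Equiv.Perm Y) (a : Y → ℤ) : SW Y :=
  ⟨{ toFun := fun z => (π z.1, a z.1 + z.2)
     invFun := fun z => (π.symm z.1, - a (π.symm z.1) + z.2)
     left_inv := fun z => by simp
     right_inv := fun z => by simp }, fun ω n => by simp⟩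

theorem pSW_apply {Y : Type u} (π : Equiv.Perm Y) (a : Y → ℤ) (z : Y × ℤ) :
    (pSW π a).1 z = (π z.1, a z.1 + z.2) := rfl

theorem free_det {α : Type u} (y : FreeGroup α) (hy : y ≠ 1) :
    ∃ (Y : Type u) (_ : Finite Y) (U : FreeGroup α →* SW Y) (y₀ : Y) (c : ℤ), c ≠ 0 ∧
      (U y).1 (y₀, 0) = (y₀, c) := by
  classical
  have hinf : ∀ n : ℤ, y ^ n = 1 → n = 0 := by
    intro n hn
    by_contra h0
    exact hy ((IsMulTorsionFree.zpow_eq_one_iff_left h0).1 hn)
  obtain ⟨e, he⟩ := exists_exp y hinf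
  let X := FreeGroup α ⧸ Subgroup.zpowers y
  let x₀ : X := ((1 : FreeGroup α) : X)
  let L := y.toWord
  let S₀ : Finset X := (L.tails.map fun M => (((FreeGroup.mk M : FreeGroup α)) : X)).toFinset
  have hmem : ∀ (M : List (α × Bool)), M <:+ L → (((FreeGroup.mk M : FreeGroup α)) : X) ∈ S₀ := by
    intro M hM
    rw [List.mem_toFinset, List.mem_map]
    exact ⟨M, (List.mem_tails _ _).2 hM, rfl⟩
  have hex : ∀ i : α, ∃ τ : Equiv.Perm S₀, ∀ s s' : S₀,
      (s' : X) = FreeGroup.of i • (s : X) → τ s = s' := fun i =>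
    exists_perm_extend (fun s : S₀ => (s : X)) Subtype.val_injective
      (MulAction.toPerm (FreeGroup.of i))
  choose τ hτ using hex
  let U : FreeGroup α →* SW S₀ :=
    FreeGroup.lift (fun i => pSW (τ i) (fun s => ic (Subgroup.zpowers y) e (FreeGroup.of i) s))
  have hinv : ∀ (g : FreeGroup α) (x : X), ic (Subgroup.zpowers y) e g⁻¹ x =
      - ic (Subgroup.zpowers y) e g (g⁻¹ • x) := by
    intro g x
    have h1 := ic_mul (Subgroup.zpowers y) e g g⁻¹ x
    have h2 := ic_mul (Subgroup.zpowers y) e 1 1 x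
    rw [mul_one, one_smul] at h2
    rw [mul_inv_cancel] at h1
    omega
  -- letters act as they should
  have hlet : ∀ (x : α × Bool) (s s' : S₀) (n : ℤ),
      (s' : X) = (FreeGroup.mk [x] : FreeGroup α) • (s : X) →
      (U (FreeGroup.mk [x])).1 (s, n) =
        (s', ic (Subgroup.zpowers y) e (FreeGroup.mk [x]) (s : X) + n) := by
    rintro ⟨i, b⟩ s s' n hs
    have hUi : U (FreeGroup.of i) =
        pSW (τ i) (fun s => ic (Subgroup.zpowers y) e (FreeGroup.of i) s) :=
      FreeGroup.lift_apply_of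
    cases b
    · have e1 : (FreeGroup.mk [(i, false)] : FreeGroup α) = (FreeGroup.of i)⁻¹ := rfl
      rw [e1] at hs ⊢
      have h3 : (s : X) = FreeGroup.of i • (s' : X) := by rw [hs, smul_inv_smul]
      rw [map_inv]
      change (U (FreeGroup.of i)).1.symm (s, n) = _
      rw [Equiv.symm_apply_eq, hUi, pSW_apply, hτ i s' s h3]
      refine Prod.ext rfl ?_
      change n = ic _ e (FreeGroup.of i) s' + (ic _ e (FreeGroup.of i)⁻¹ s + n)
      rw [hinv, ← hs]
      ring
    · have e1 : (FreeGroup.mk [(i, true)] : FreeGroup α) = FreeGroup.of i := rfl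
      rw [e1] at hs ⊢
      rw [hUi, pSW_apply, hτ i s s' hs]
  have hwords : ∀ (M : List (α × Bool)) (hM : M <:+ L),
      (U (FreeGroup.mk M)).1 (⟨x₀, hmem [] List.nil_suffix⟩, 0) =
        (⟨(((FreeGroup.mk M : FreeGroup α)) : X), hmem M hM⟩,
          ic (Subgroup.zpowers y) e (FreeGroup.mk M) x₀) := by
    intro M
    induction M with
    | nil =>
      intro hM
      have h2 := ic_mul (Subgroup.zpowers y) e 1 1 x₀
      rw [mul_one, one_smul] at h2
      have hU1 : U (FreeGroup.mk []) = 1 := map_one U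
      rw [hU1]
      refine Prod.ext rfl ?_
      change (0 : ℤ) = ic (Subgroup.zpowers y) e (1 : FreeGroup α) x₀
      omega
    | cons x M ih =>
      intro hM
      have hM' : M <:+ L := (List.suffix_cons x M).trans hM
      have h1 : (FreeGroup.mk (x :: M) : FreeGroup α) = FreeGroup.mk [x] * FreeGroup.mk M := by
        rw [FreeGroup.mul_mk]
        rfl
      have h2 : U (FreeGroup.mk (x :: M)) = U (FreeGroup.mk [x]) * U (FreeGroup.mk M) := by
        rw [h1, map_mul]
      rw [h2]
      change (U (FreeGroup.mk [x])).1 ((U (FreeGroup.mk M)).1 _) = _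
      rw [ih hM', hlet x ⟨_, hmem M hM'⟩ ⟨_, hmem (x :: M) hM⟩]
      · refine Prod.ext rfl ?_
        change ic (Subgroup.zpowers y) e (FreeGroup.mk [x]) ((FreeGroup.mk M : FreeGroup α) : X) +
          ic (Subgroup.zpowers y) e (FreeGroup.mk M) x₀ =
          ic (Subgroup.zpowers y) e (FreeGroup.mk (x :: M)) x₀
        rw [h1, ic_mul]
        have h3 : (FreeGroup.mk M : FreeGroup α) • x₀ = ((FreeGroup.mk M : FreeGroup α) : X) := by
          change ((FreeGroup.mk M * 1 : FreeGroup α) : X) = _
          rw [mul_one]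
        rw [h3]
      · change ((FreeGroup.mk (x :: M) : FreeGroup α) : X) =
          (FreeGroup.mk [x] : FreeGroup α) • ((FreeGroup.mk M : FreeGroup α) : X)
        rw [h1]
        rfl
  refine ⟨S₀, inferInstance, U, ⟨x₀, hmem [] List.nil_suffix⟩, 1, one_ne_zero, ?_⟩
  have h1 := hwords L (List.suffix_refl L)
  have h2 : (FreeGroup.mk L : FreeGroup α) = y := FreeGroup.mk_toWord
  have h3 : ((y : FreeGroup α) : X) = x₀ := by
    rw [eq_comm, QuotientGroup.eq, inv_one, one_mul]
    exact Subgroup.mem_zpowers y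
  have h4 : U y = U (FreeGroup.mk L) := by rw [h2]
  rw [h4, h1]
  refine Prod.ext (Subtype.ext ?_) ?_
  · change ((FreeGroup.mk L : FreeGroup α) : X) = x₀
    rw [h2, h3]
  · change ic (Subgroup.zpowers y) e (FreeGroup.mk L) x₀ = 1
    rw [h2, ic_base _ _ _ (Subgroup.mem_zpowers y), he, toAdd_ofAdd]

end Q27.VR
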