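import Pool.Agent.Q27.VRC.Act
import Pool.Agent.Q27.VRC.Free

/-! Normal forms in amalgams and hyperbolic elements. -/

namespace Q27.VR

universe u v w

section

variable {R P Q G : Type u} [Group R] [Group P] [Group Q] [Group G] (φ : R →* P)
    (ψ : R →* Q) (ιP : P →* G) (ιQ : Q →* G)

/-- evaluation of letters -/
def io : P ⊕ Q → G := Sum.elim ιP ιQ

@[simp] theorem io_inl (p : P) : io ιP ιQ (Sum.inl p) = ιP p := rfl
@[simp] theorem io_inr (q : Q) : io ιP ιQ (Sum.inr q) = ιQ q := rfl

/-- letters outside the edge group -/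
def Out : P ⊕ Q → Prop := Sum.elim (fun p => p ∉ φ.range) (fun q => q ∉ ψ.range)

/-- alternating lists -/
def Alt (l : List (P ⊕ Q)) : Prop := l.IsChain (fun s t => s.isLeft ≠ t.isLeft)

/-- evaluation of lists -/
def pr (l : List (P ⊕ Q)) : G := (l.map (io ιP ιQ)).prod

@[simp] theorem pr_nil : pr ιP ιQ [] = 1 := rfl
@[simp] theorem pr_cons (s : P ⊕ Q) (l : List (P ⊕ Q)) :
    pr ιP ιQ (s :: l) = io ιP ιQ s * pr ιP ιQ l := by simp [pr]

theorem pr_append (l l' : List (P ⊕ Q)) : pr ιP ιQ (l ++ l') = pr ιP ιQ l * pr ιP ιQ l' := by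
  simp [pr]

/-- left multiplication by the edge group -/
def mulL (r : R) : P ⊕ Q → P ⊕ Q := Sum.map (fun p => φ r * p) (fun q => ψ r * q)

/-- product of two letters of the same kind -/
def join : P ⊕ Q → P ⊕ Q → P ⊕ Q
  | Sum.inl p, Sum.inl p' => Sum.inl (p * p')
  | Sum.inr q, Sum.inr q' => Sum.inr (q * q')
  | s, _ => s

variable {φ ψ ιP ιQ}

theorem io_mulL (hc : ∀ r, ιP (φ r) = ιQ (ψ r)) (r : R) (s : P ⊕ Q) :
    io ιP ιQ (mulL φ ψ r s) = ιP (φ r) * io ιP ιQ s := by
  cases s with
  | inl p => change ιP (φ r * p) = _; rw [map_mul]; rfl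
  | inr q => change ιQ (ψ r * q) = _; rw [map_mul, hc]; rfl

theorem mulL_isLeft (r : R) (s : P ⊕ Q) : (mulL φ ψ r s).isLeft = s.isLeft := by
  cases s <;> rfl

theorem mulL_out (r : R) (s : P ⊕ Q) (h : Out φ ψ s) : Out φ ψ (mulL φ ψ r s) := by
  cases s with
  | inl p =>
    rintro ⟨r', hr'⟩
    exact h ⟨r⁻¹ * r', by rw [map_mul, hr', map_inv, inv_mul_cancel_left]⟩
  | inr q =>
    rintro ⟨r', hr'⟩
    exact h ⟨r⁻¹ * r', by rw [map_mul, hr', map_inv, inv_mul_cancel_left]⟩

theorem io_join (s t : P ⊕ Q) (h : s.isLeft = t.isLeft) :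
    io ιP ιQ (join s t) = io ιP ιQ s * io ιP ιQ t := by
  cases s <;> cases t <;> simp_all [join]

theorem join_isLeft (s t : P ⊕ Q) : (join s t).isLeft = s.isLeft := by
  cases s <;> cases t <;> simp_all [join]

theorem out_or (hc : ∀ r, ιP (φ r) = ιQ (ψ r)) (s : P ⊕ Q) :
    Out φ ψ s ∨ ∃ r, io ιP ιQ s = ιP (φ r) := by
  by_cases h : Out φ ψ s
  · exact Or.inl h
  · right
    cases s with
    | inl p =>
      have h' : p ∈ φ.range := not_not.1 h
      obtain ⟨r, hr⟩ := h'
      exact ⟨r, by rw [hr]; rfl⟩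
    | inr q =>
      have h' : q ∈ ψ.range := not_not.1 h
      obtain ⟨r, hr⟩ := h'
      exact ⟨r, by rw [hc, hr]; rfl⟩

variable (φ ψ ιP ιQ)

/-- normal forms -/
def Red (x : G) : Prop := (∃ r, x = ιP (φ r)) ∨
  ∃ l : List (P ⊕ Q), l ≠ [] ∧ Alt l ∧ (∀ s ∈ l, Out φ ψ s) ∧ x = pr ιP ιQ l

variable {φ ψ ιP ιQ}

theorem red_base (hc : ∀ r, ιP (φ r) = ιQ (ψ r)) (r : R) (l : List (P ⊕ Q)) (hl : Alt l)
    (ho : ∀ s ∈ l, Out φ ψ s) : Red φ ψ ιP ιQ (ιP (φ r) * pr ιP ιQ l) := by
  cases l with
  | nil => exact Or.inl ⟨r, by simp⟩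
  | cons s l =>
    right
    refine ⟨mulL φ ψ r s :: l, by simp, ?_, ?_, ?_⟩
    · cases l with
      | nil => exact List.isChain_singleton _
      | cons t l =>
        unfold Alt at hl ⊢
        rw [List.isChain_cons_cons] at hl ⊢
        rw [mulL_isLeft]
        exact hl
    · intro t ht
      rcases List.mem_cons.1 ht with rfl | ht
      · exact mulL_out r s (ho s List.mem_cons_self)
      · exact ho t (List.mem_cons_of_mem _ ht)
    · rw [pr_cons, pr_cons, io_mulL hc, mul_assoc]

theorem red_mul (hc : ∀ r, ιP (φ r) = ιQ (ψ r)) (t : P ⊕ Q) (x : G) (hx : Red φ ψ ιP ιQ x) :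
    Red φ ψ ιP ιQ (io ιP ιQ t * x) := by
  rcases hx with ⟨r, rfl⟩ | ⟨l, hl, hA, ho, rfl⟩
  · -- the element of the edge group is absorbed on the right
    obtain ⟨t', ht', ht''⟩ : ∃ t' : P ⊕ Q, io ιP ιQ t * ιP (φ r) = io ιP ιQ t' ∧
        t'.isLeft = t.isLeft := by
      cases t with
      | inl p => exact ⟨Sum.inl (p * φ r), by simp, rfl⟩
      | inr q => exact ⟨Sum.inr (q * ψ r), by simp [hc], rfl⟩
    rw [ht']
    rcases out_or hc t' with h | ⟨r', hr'⟩
    · right
      exact ⟨[t'], by simp, List.isChain_singleton _, by simpa using h, by simp⟩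
    · exact Or.inl ⟨r', hr'⟩
  · cases l with
    | nil => exact absurd rfl hl
    | cons s l =>
      have hAl : Alt l := by
        unfold Alt at hA ⊢
        exact hA.tail
      have hol : ∀ s ∈ l, Out φ ψ s := fun s hs => ho s (List.mem_cons_of_mem _ hs)
      by_cases hk : t.isLeft = s.isLeft
      · rw [pr_cons, ← mul_assoc, ← io_join t s hk]
        rcases out_or hc (join t s) with h | ⟨r', hr'⟩
        · right
          refine ⟨join t s :: l, by simp, ?_, ?_, by simp⟩
          · cases l with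
            | nil => exact List.isChain_singleton _
            | cons t' l =>
              unfold Alt at hA ⊢
              rw [List.isChain_cons_cons] at hA ⊢
              rw [join_isLeft, hk]
              exact hA
          · intro t' ht'
            rcases List.mem_cons.1 ht' with rfl | ht'
            · exact h
            · exact hol t' ht'
        · rw [hr']
          exact red_base hc r' l hAl hol
      · rcases out_or hc t with h | ⟨r', hr'⟩
        · right
          refine ⟨t :: s :: l, by simp, ?_, ?_, by simp⟩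
          · unfold Alt at hA ⊢
            rw [List.isChain_cons_cons]
            exact ⟨hk, hA⟩
          · intro t' ht'
            rcases List.mem_cons.1 ht' with rfl | ht'
            · exact h
            · exact ho t' ht'
        · rw [hr']
          exact red_base hc r' (s :: l) hA ho

theorem red_all (hc : ∀ r, ιP (φ r) = ιQ (ψ r))
    (hgen : ∀ x : G, x ∈ Subgroup.closure (Set.range (io ιP ιQ))) (x : G) :
    Red φ ψ ιP ιQ x := by
  refine Subgroup.closure_induction_left (p := fun x _ => Red φ ψ ιP ιQ x) ?_ ?_ ?_ (hgen x)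
  · exact Or.inl ⟨1, by simp⟩
  · rintro _ ⟨t, rfl⟩ y _ hy
    exact red_mul hc t y hy
  · rintro _ ⟨t, rfl⟩ y _ hy
    have : (io ιP ιQ t)⁻¹ = io ιP ιQ (Sum.map (fun p => p⁻¹) (fun q => q⁻¹) t) := by
      cases t <;> simp
    rw [this]
    exact red_mul hc _ y hy

/-- cyclically reduced lists -/
def CR (φ : R →* P) (ψ : R →* Q) (l : List (P ⊕ Q)) : Prop :=
  Alt l ∧ (∀ s ∈ l, Out φ ψ s) ∧ ∃ (s t : P ⊕ Q) (m : List (P ⊕ Q)), l = s :: (m ++ [t]) ∧
    s.isLeft ≠ t.isLeft

theorem cyc (hc : ∀ r, ιP (φ r) = ιQ (ψ r)) :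
    ∀ (n : ℕ) (l : List (P ⊕ Q)), l.length = n → Alt l → (∀ s ∈ l, Out φ ψ s) →
    ∃ g : G, (∃ t : P ⊕ Q, pr ιP ιQ l = g * io ιP ιQ t * g⁻¹) ∨
      ∃ l', CR φ ψ l' ∧ pr ιP ιQ l = g * pr ιP ιQ l' * g⁻¹ := by
  intro n
  induction n using Nat.strong_induction_on with
  | _ n ih =>
    intro l hn hA ho
    cases l with
    | nil => exact ⟨1, Or.inl ⟨Sum.inl 1, by simp⟩⟩
    | cons s l =>
      rcases List.eq_nil_or_concat' l with rfl | ⟨m, t, rfl⟩
      · exact ⟨1, Or.inl ⟨s, by simp⟩⟩
      · by_cases hk : s.isLeft = t.isLeft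
        · -- conjugate by the last letter
          have hm : m ≠ [] := by
            rintro rfl
            unfold Alt at hA
            simp only [List.nil_append, List.isChain_cons_cons] at hA
            exact hA.1 hk
          obtain ⟨s', m', rfl⟩ := List.exists_cons_of_ne_nil hm
          have hA1 : Alt (s :: (s' :: m')) := by
            unfold Alt at hA ⊢
            have : s :: (s' :: m' ++ [t]) = (s :: (s' :: m')) ++ [t] := rfl
            rw [this] at hA
            exact (List.isChain_append.1 hA).1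
          have hA2 : Alt (s' :: m') := by
            unfold Alt at hA1 ⊢
            exact hA1.tail
          have hlast : ∀ z ∈ (s' :: m').getLast?, z.isLeft ≠ t.isLeft := by
            unfold Alt at hA
            have h1 := hA.tail
            have h2 := (List.isChain_append.1 h1).2.2
            intro z hz
            exact h2 z hz t (by simp)
          have hpr : pr ιP ιQ (s :: (s' :: m' ++ [t])) =
              (io ιP ιQ t)⁻¹ * (io ιP ιQ (join t s) * pr ιP ιQ (s' :: m')) *
                (io ιP ιQ t)⁻¹⁻¹ := by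
            rw [pr_cons, pr_append, io_join t s hk.symm]
            simp only [pr_cons, pr_nil]
            group
          have hoin : ∀ z ∈ (s' :: m'), Out φ ψ z := by
            intro z hz
            apply ho
            rw [List.mem_cons]
            right
            exact List.mem_append_left _ hz
          rcases out_or hc (join t s) with h | ⟨r, hr⟩
          · refine ⟨(io ιP ιQ t)⁻¹, Or.inr ⟨join t s :: (s' :: m'), ⟨?_, ?_, ?_⟩, ?_⟩⟩
            · unfold Alt at hA1 ⊢
              rw [List.isChain_cons_cons] at hA1 ⊢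
              rw [join_isLeft, ← hk]
              exact hA1
            · intro z hz
              rcases List.mem_cons.1 hz with rfl | hz
              · exact h
              · exact hoin z hz
            · rcases List.eq_nil_or_concat' (s' :: m') with h1 | ⟨m'', t'', h1⟩
              · cases h1
              · refine ⟨join t s, t'', m'', by rw [h1], ?_⟩
                rw [join_isLeft]
                have := hlast t'' (by rw [h1]; simp)
                exact fun h => this h.symm
            · rw [hpr]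
              simp only [pr_cons]
          · obtain ⟨g, hg⟩ := ih (m'.length + 1) (by
              rw [← hn]
              simp only [List.length_cons, List.length_append]
              omega) (mulL φ ψ r s' :: m') (by simp) (by
                cases m' with
                | nil => exact List.isChain_singleton _
                | cons z m' =>
                  unfold Alt at hA2 ⊢
                  rw [List.isChain_cons_cons] at hA2 ⊢
                  rw [mulL_isLeft]
                  exact hA2) (by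
                intro z hz
                rcases List.mem_cons.1 hz with rfl | hz
                · exact mulL_out r s' (hoin s' List.mem_cons_self)
                · exact hoin z (List.mem_cons_of_mem _ hz))
            have hpr2 : io ιP ιQ (join t s) * pr ιP ιQ (s' :: m') =
                pr ιP ιQ (mulL φ ψ r s' :: m') := by
              rw [hr, pr_cons, pr_cons, io_mulL hc, mul_assoc]
            rw [hpr2] at hpr
            rcases hg with ⟨t', ht'⟩ | ⟨l', hl', hl''⟩
            · refine ⟨(io ιP ιQ t)⁻¹ * g, Or.inl ⟨t', ?_⟩⟩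
              rw [hpr, ht']
              group
            · refine ⟨(io ιP ιQ t)⁻¹ * g, Or.inr ⟨l', hl', ?_⟩⟩
              rw [hpr, hl'']
              group
        · exact ⟨1, Or.inr ⟨s :: (m ++ [t]), ⟨hA, ho, s, t, m, rfl, hk⟩, by simp⟩⟩

/-- powers of cyclically reduced lists -/
theorem CR.pow {l : List (P ⊕ Q)} (h : CR φ ψ l) (n : ℕ) :
    Alt (List.replicate n l).flatten ∧
      (∀ s ∈ (List.replicate n l).flatten, s ∈ l) ∧
      pr ιP ιQ (List.replicate n l).flatten = (pr ιP ιQ l) ^ n := by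
  obtain ⟨hA, ho, s, t, m, rfl, hk⟩ := h
  induction n with
  | zero => exact ⟨List.isChain_nil, by simp, by simp⟩
  | succ n ih =>
    obtain ⟨h1, h2, h3⟩ := ih
    rw [List.replicate_succ, List.flatten_cons]
    refine ⟨?_, ?_, ?_⟩
    · unfold Alt at *
      rw [List.isChain_append]
      refine ⟨hA, h1, ?_⟩
      intro x hx y hy
      have hx' : x = t := by
        have : s :: (m ++ [t]) = (s :: m) ++ [t] := rfl
        rw [this, List.getLast?_append] at hx
        simpa using hx.symm
      have hy' : y = s := by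
        cases n with
        | zero => simp at hy
        | succ n =>
          rw [List.replicate_succ, List.flatten_cons] at hy
          simpa using hy.symm
      rw [hx', hy']
      exact fun h => hk h.symm
    · intro z hz
      rcases List.mem_append.1 hz with hz | hz
      · exact hz
      · exact h2 z hz
    · rw [pr_append, h3, pow_succ']

section letters

variable {S : Type w} [Group S] (τ : G →* S) (ρ : R → S) (ιP ιQ)

omit [Group R]

/-- the class of an element modulo the edge group -/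
def cls (s : S) : Set S := {s' | ∃ r : R, s' = ρ r * s}

/-- the word in the free group traced by a list -/
def letters : List (P ⊕ Q) → S → List (Set S × Bool)
  | [], _ => []
  | Sum.inl _ :: l, s => letters l s
  | Sum.inr q :: l, s => (cls ρ (τ (ιQ q) * (τ (pr ιP ιQ l) * s)), true) ::
      (cls ρ (τ (pr ιP ιQ l) * s), false) :: letters l s

variable {ιP ιQ τ ρ}

theorem letters_nil (s : S) : letters ιP ιQ τ ρ [] s = [] := rfl

theorem letters_inl (p : P) (l : List (P ⊕ Q)) (s : S) :
    letters ιP ιQ τ ρ (Sum.inl p :: l) s = letters ιP ιQ τ ρ l s := rfl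

theorem letters_inr (q : Q) (l : List (P ⊕ Q)) (s : S) :
    letters ιP ιQ τ ρ (Sum.inr q :: l) s = (cls ρ (τ (ιQ q) * (τ (pr ιP ιQ l) * s)), true) ::
      (cls ρ (τ (pr ιP ιQ l) * s), false) :: letters ιP ιQ τ ρ l s := rfl

theorem cls_ne (h1 : ∃ r, ρ r = 1) (t s : S) (ht : ∀ r, t ≠ ρ r) : cls ρ (t * s) ≠ cls ρ s := by
  intro h
  have h2 : t * s ∈ cls ρ (t * s) := by
    obtain ⟨r, hr⟩ := h1
    exact ⟨r, by rw [hr, one_mul]⟩
  rw [h] at h2
  obtain ⟨r, hr⟩ := h2
  exact ht r (mul_right_cancel hr)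

theorem letters_red (h1 : ∃ r, ρ r = 1) (s : S) (l : List (P ⊕ Q)) (hA : Alt l)
    (ho : ∀ t ∈ l, ∀ r, τ (io ιP ιQ t) ≠ ρ r) :
    FreeGroup.IsReduced (letters ιP ιQ τ ρ l s) ∧
      ∀ a ∈ (letters ιP ιQ τ ρ l s).head?,
        ((∃ q l', l = Sum.inr q :: l') → a.1 = cls ρ (τ (pr ιP ιQ l) * s)) ∧
        ((∃ p l', l = Sum.inl p :: l') → a.1 ≠ cls ρ (τ (pr ιP ιQ l) * s)) := by
  induction l with
  | nil =>
    refine ⟨List.isChain_nil, ?_⟩
    intro a ha
    rw [letters_nil] at ha
    cases ha
  | cons t l ih =>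
    have hA' : Alt l := by
      unfold Alt at hA ⊢
      exact hA.tail
    obtain ⟨ih1, ih2⟩ := ih hA' (fun t ht => ho t (List.mem_cons_of_mem _ ht))
    cases t with
    | inl p =>
      rw [letters_inl]
      refine ⟨ih1, ?_⟩
      intro a ha
      refine ⟨?_, fun _ => ?_⟩
      · rintro ⟨q, l', h⟩
        cases h
      · -- the tail starts with a letter of the other kind
        cases l with
        | nil =>
          rw [letters_nil] at ha
          cases ha
        | cons z l =>
          cases z with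
          | inl p' =>
            unfold Alt at hA
            rw [List.isChain_cons_cons] at hA
            exact absurd rfl hA.1
          | inr q' =>
            have h3 := (ih2 a ha).1 ⟨q', l, rfl⟩
            have e : τ (pr ιP ιQ (Sum.inl p :: Sum.inr q' :: l)) * s =
                τ (io ιP ιQ (Sum.inl p)) * (τ (pr ιP ιQ (Sum.inr q' :: l)) * s) := by
              rw [pr_cons _ _ (Sum.inl p), map_mul, mul_assoc]
            rw [h3, e]
            exact (cls_ne h1 _ _ (ho (Sum.inl p) List.mem_cons_self)).symm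
    | inr q =>
      rw [letters_inr]
      constructor
      · unfold FreeGroup.IsReduced
        rw [List.isChain_cons_cons]
        constructor
        · intro h
          exact absurd h (cls_ne h1 _ _ (ho (Sum.inr q) List.mem_cons_self))
        · rw [List.isChain_cons]
          refine ⟨?_, ih1⟩
          intro a ha h
          exfalso
          cases l with
          | nil =>
            rw [letters_nil] at ha
            cases ha
          | cons z l =>
            cases z with
            | inr q' =>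
              unfold Alt at hA
              rw [List.isChain_cons_cons] at hA
              exact hA.1 rfl
            | inl p' =>
              exact (ih2 a ha).2 ⟨p', l, rfl⟩ h.symm
      · intro a ha
        rw [List.head?_cons, Option.mem_def, Option.some.injEq] at ha
        subst ha
        refine ⟨fun _ => ?_, ?_⟩
        · change cls ρ (τ (ιQ q) * (τ (pr ιP ιQ l) * s)) = _
          rw [pr_cons, map_mul, io_inr, mul_assoc]
        · rintro ⟨p, l', h⟩
          cases h

theorem letters_ne (s : S) (l : List (P ⊕ Q)) (h : ∃ q, Sum.inr q ∈ l) :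
    letters ιP ιQ τ ρ l s ≠ [] := by
  induction l with
  | nil =>
    obtain ⟨q, hq⟩ := h
    cases hq
  | cons t l ih =>
    cases t with
    | inl p =>
      rw [letters_inl]
      apply ih
      obtain ⟨q, hq⟩ := h
      rcases List.mem_cons.1 hq with h | h
      · cases h
      · exact ⟨q, h⟩
    | inr q =>
      rw [letters_inr]
      exact List.cons_ne_nil _ _

end letters

/-- the main construction for hyperbolic elements -/
theorem det_list {φ : R →* P} {ψ : R →* Q} {ιP : P →* G} {ιQ : Q →* G} (L : Lifts φ ψ ιP ιQ)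
    {Ω : Type u} [Finite Ω] (τ : G →* Equiv.Perm Ω) (l : List (P ⊕ Q)) (hl : CR φ ψ l)
    (ho : ∀ t ∈ l, ∀ r, τ (io ιP ιQ t) ≠ τ (ιP (φ r))) : Det G (pr ιP ιQ l) := by
  classical
  obtain ⟨ρ, hρ⟩ : ∃ ρ : R → Equiv.Perm Ω, ρ = fun r => τ (ιP (φ r)) := ⟨_, rfl⟩
  have hρ1 : ∃ r, ρ r = 1 := ⟨1, by rw [hρ]; simp⟩
  -- a power in the kernel
  obtain ⟨m, hm⟩ : ∃ m, m = orderOf (τ (pr ιP ιQ l)) := ⟨_, rfl⟩
  have hm0 : 0 < m := by
    rw [hm]
    exact orderOf_pos _
  obtain ⟨hA, hmem, hpr⟩ := hl.pow (ιP := ιP) (ιQ := ιQ) m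
  obtain ⟨lm, hlm⟩ : ∃ lm, lm = (List.replicate m l).flatten := ⟨_, rfl⟩
  rw [← hlm] at hA hmem hpr
  have hred := (letters_red (ιP := ιP) (ιQ := ιQ) (τ := τ) (ρ := ρ) hρ1 1 lm hA
    (fun t ht r => by rw [hρ]; exact ho t (hmem t ht) r)).1
  have hinr : ∃ q, Sum.inr q ∈ lm := by
    obtain ⟨-, -, s, t, k, rfl, hk⟩ := hl
    obtain ⟨m', rfl⟩ : ∃ m', m = m' + 1 := ⟨m - 1, by omega⟩
    rw [List.replicate_succ, List.flatten_cons] at hlm
    have h1 : s ∈ lm := by rw [hlm]; simp
    have h2 : t ∈ lm := by rw [hlm]; simp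
    cases s with
    | inr q => exact ⟨q, h1⟩
    | inl p =>
      cases t with
      | inr q => exact ⟨q, h2⟩
      | inl p' => exact absurd rfl hk
  have hne := letters_ne (ιP := ιP) (ιQ := ιQ) (τ := τ) (ρ := ρ) 1 lm hinr
  obtain ⟨y, hy⟩ : ∃ y : FreeGroup (Set (Equiv.Perm Ω)),
    y = FreeGroup.mk (letters ιP ιQ τ ρ lm 1) := ⟨_, rfl⟩
  have hy1 : y ≠ 1 := by
    intro h
    apply hne
    rw [← hred.reduce_eq, ← FreeGroup.toWord_mk, ← hy, h, FreeGroup.toWord_one]
  obtain ⟨Y, hY, U, y₀, c, hc0, hUy⟩ := free_det y hy1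
  -- the action
  let T : G →* SW (Equiv.Perm Ω × Y) := mkSW
    (MonoidHom.toHomPerm
      { toFun := fun g => (fun z => (τ g * z.1, z.2) : Function.End (Equiv.Perm Ω × Y))
        map_one' := by
          funext z
          change (τ 1 * z.1, z.2) = z
          rw [map_one, one_mul]
        map_mul' := by
          intro g h
          funext z
          change (τ (g * h) * z.1, z.2) = (τ g * (τ h * z.1), z.2)
          rw [map_mul, mul_assoc] }) (fun _ _ => 0) (fun _ _ _ => rfl)
  have hT : ∀ g s y n, (T g).1 ((s, y), n) = ((τ g * s, y), n) := by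
    intro g s y n
    change ((τ g * s, y), (0 : ℤ) + n) = _
    rw [zero_add]
  let V : Equiv.Perm Ω → SW Y := fun s => U (FreeGroup.of (cls ρ s))
  let D : SW (Equiv.Perm Ω × Y) :=
    ⟨{ toFun := fun z => ((z.1.1, ((V z.1.1).1 (z.1.2, z.2)).1), ((V z.1.1).1 (z.1.2, z.2)).2)
       invFun := fun z => ((z.1.1, ((V z.1.1).1.symm (z.1.2, z.2)).1),
        ((V z.1.1).1.symm (z.1.2, z.2)).2)
       left_inv := by
        rintro ⟨⟨s, y⟩, n⟩
        simp
       right_inv := by
        rintro ⟨⟨s, y⟩, n⟩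
        simp }, by
      rintro ⟨s, y⟩ n
      change ((s, ((V s).1 (y, n)).1), ((V s).1 (y, n)).2) =
        ((s, ((V s).1 (y, 0)).1), ((V s).1 (y, 0)).2 + n)
      rw [SW_apply]⟩
  have hD : ∀ s y n, D.1 ((s, y), n) = ((s, ((V s).1 (y, n)).1), ((V s).1 (y, n)).2) :=
    fun _ _ _ => rfl
  have hDi : ∀ s y n, D.1⁻¹ ((s, y), n) =
      ((s, ((V s)⁻¹.1 (y, n)).1), ((V s)⁻¹.1 (y, n)).2) := fun _ _ _ => rfl
  have hVR : ∀ r s, V (ρ r * s) = V s := by
    intro r s
    have : cls ρ (ρ r * s) = cls ρ s := by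
      ext x
      constructor
      · rintro ⟨r', rfl⟩
        refine ⟨r' * r, ?_⟩
        rw [hρ]
        simp only [map_mul]
        rw [mul_assoc]
      · rintro ⟨r', rfl⟩
        refine ⟨r' * r⁻¹, ?_⟩
        rw [hρ]
        simp only [map_mul, map_inv]
        rw [mul_assoc, inv_mul_cancel_left]
    change U _ = U _
    rw [this]
  obtain ⟨Φ, hΦ1, hΦ2⟩ := L.lift (SW (Equiv.Perm Ω × Y)) (T.comp ιP)
    ((MulAut.conj D).toMonoidHom.comp (T.comp ιQ)) (by
      intro r
      change T (ιP (φ r)) = D * T (ιQ (ψ r)) * D⁻¹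
      rw [← L.comm, eq_mul_inv_iff_mul_eq]
      apply Subtype.ext
      apply Equiv.ext
      rintro ⟨⟨s, y⟩, n⟩
      change (T (ιP (φ r))).1 (D.1 ((s, y), n)) = D.1 ((T (ιP (φ r))).1 ((s, y), n))
      rw [hD, hT, hT, hD]
      have : V (τ (ιP (φ r)) * s) = V s := by
        have := hVR r s
        rwa [hρ] at this
      rw [this])
  -- the action of lists
  have hlist : ∀ (l : List (P ⊕ Q)) (s : Equiv.Perm Ω) (y : Y) (n : ℤ),
      (Φ (pr ιP ιQ l)).1 ((s, y), n) = ((τ (pr ιP ιQ l) * s,
        ((U (FreeGroup.mk (letters ιP ιQ τ ρ l s))).1 (y, n)).1),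
        ((U (FreeGroup.mk (letters ιP ιQ τ ρ l s))).1 (y, n)).2) := by
    intro l
    induction l with
    | nil =>
      intro s y n
      have h1 : U (FreeGroup.mk (letters ιP ιQ τ ρ [] s)) = 1 := map_one U
      rw [h1]
      simp
    | cons t l ih =>
      intro s y n
      have h1 : (Φ (pr ιP ιQ (t :: l))).1 ((s, y), n) =
          (Φ (io ιP ιQ t)).1 ((Φ (pr ιP ιQ l)).1 ((s, y), n)) := by
        rw [pr_cons, map_mul]
        rfl
      rw [h1, ih]
      cases t with
      | inl p =>
        rw [io_inl, hΦ1, letters_inl]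
        change (T (ιP p)).1 _ = _
        rw [hT, pr_cons, map_mul, mul_assoc, io_inl]
      | inr q =>
        rw [io_inr, hΦ2, letters_inr]
        change D.1 ((T (ιQ q)).1 (D.1⁻¹ _)) = _
        rw [hDi, hT, hD, pr_cons, map_mul, mul_assoc, io_inr]
        have h2 : U (FreeGroup.mk ((cls ρ (τ (ιQ q) * (τ (pr ιP ιQ l) * s)), true) ::
            (cls ρ (τ (pr ιP ιQ l) * s), false) :: letters ιP ιQ τ ρ l s)) =
            V (τ (ιQ q) * (τ (pr ιP ιQ l) * s)) * ((V (τ (pr ιP ιQ l) * s))⁻¹ *
              U (FreeGroup.mk (letters ιP ιQ τ ρ l s))) := by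
          change _ = U (FreeGroup.of _) * ((U (FreeGroup.of _))⁻¹ * _)
          rw [← map_inv, ← map_mul, ← map_mul]
          rfl
        rw [h2]
        rfl
  refine ⟨Equiv.Perm Ω × Y, inferInstance, Φ, (1, y₀), m, c, hc0, ?_⟩
  rw [zpow_natCast, ← hpr, hlist, ← hy, hUy]
  have h3 : τ (pr ιP ιQ lm) = 1 := by
    rw [hpr, map_pow, hm]
    exact pow_orderOf_eq_one _
  rw [h3, one_mul]

theorem det_hyp {φ : R →* P} {ψ : R →* Q} {ιP : P →* G} {ιQ : Q →* G} (L : Lifts φ ψ ιP ιQ)
    (hP : VRC P) (hQ : VRC Q) (hφ : Function.Injective φ) (hψ : Function.Injective ψ)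
    (r : R) (hfi : (Subgroup.zpowers r).FiniteIndex) (hr : r = 1 ∨ ∀ n : ℤ, r ^ n = 1 → n = 0)
    (l : List (P ⊕ Q)) (hl : CR φ ψ l) : Det G (pr ιP ιQ l) := by
  obtain ⟨Ω, hΩ, τ, h1, h2⟩ := sep_perm L hP hQ hφ hψ r hfi hr
    {p | Sum.inl p ∈ l} ((l.finite_toSet).preimage Sum.inl_injective.injOn)
    (fun p hp => hl.2.1 _ hp)
    {q | Sum.inr q ∈ l} ((l.finite_toSet).preimage Sum.inr_injective.injOn)
    (fun q hq => hl.2.1 _ hq)
  apply det_list L τ l hl
  intro t ht s
  cases t with
  | inl p => exact h1 p ht s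
  | inr q =>
    rw [L.comm]
    exact h2 q ht s

/-- the main theorem for abstract amalgams -/
theorem main {φ : R →* P} {ψ : R →* Q} {ιP : P →* G} {ιQ : Q →* G} (L : Lifts φ ψ ιP ιQ)
    (hgen : ∀ x : G, x ∈ Subgroup.closure (Set.range (io ιP ιQ)))
    (hP : VRC P) (hQ : VRC Q) (hφ : Function.Injective φ) (hψ : Function.Injective ψ)
    (hR : VirtuallyCyclic R) : VRC G := by
  -- a suitable generator of a normal cyclic subgroup of finite index
  obtain ⟨r, hfi, hn, hr⟩ : ∃ r : R, (Subgroup.zpowers r).FiniteIndex ∧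
      (Subgroup.zpowers r).Normal ∧ (r = 1 ∨ ∀ n : ℤ, r ^ n = 1 → n = 0) := by
    obtain ⟨C, hC, hCfi⟩ := hR
    by_cases hfin : Finite R
    · refine ⟨1, ?_, ?_, Or.inl rfl⟩
      · infer_instance
      · rw [Subgroup.zpowers_one_eq_bot]
        infer_instance
    · have hcore : C.normalCore.FiniteIndex := inferInstance
      have hcyc : IsCyclic C.normalCore :=
        isCyclic_of_injective (Subgroup.inclusion C.normalCore_le)
          (Subgroup.inclusion_injective _)
      obtain ⟨⟨r, hr⟩, hr'⟩ := hcyc.exists_generator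
      have hz : Subgroup.zpowers r = C.normalCore := by
        apply le_antisymm
        · rw [Subgroup.zpowers_le]
          exact hr
        · intro x hx
          obtain ⟨k, hk⟩ := Subgroup.mem_zpowers_iff.1 (hr' ⟨x, hx⟩)
          exact ⟨k, congrArg Subtype.val hk⟩
      refine ⟨r, by rw [hz]; infer_instance, by rw [hz]; infer_instance, Or.inr ?_⟩
      intro n hn
      by_contra hn0
      apply hfin
      have h1 : IsOfFinOrder r := isOfFinOrder_iff_zpow_eq_one.2 ⟨n, hn0, hn⟩
      have h2 : Finite (Subgroup.zpowers r) := h1.finite_zpowers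
      have h3 : Finite (R ⧸ Subgroup.zpowers r) := by
        rw [hz]
        exact Subgroup.finite_quotient_of_finiteIndex
      exact Finite.of_equiv _ (Subgroup.groupEquivQuotientProdSubgroup (s := Subgroup.zpowers r)).symm
  -- factors
  have hfac : ∀ (t : P ⊕ Q), (∀ n : ℤ, (io ιP ιQ t) ^ n = 1 → n = 0) → Det G (io ιP ιQ t) := by
    intro t ht
    cases t with
    | inl p =>
      refine det_factor L hP hQ hφ hψ r hfi hn hr p ?_
      intro n hn
      apply ht
      rw [io_inl, ← map_zpow, hn, map_one]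
    | inr q =>
      refine det_factor L.swap hQ hP hψ hφ r hfi hn hr q ?_
      intro n hn
      apply ht
      rw [io_inr, ← map_zpow, hn, map_one]
  have hrf : ∀ (t : P ⊕ Q), io ιP ιQ t ≠ 1 →
      ∃ N : Subgroup G, N.Normal ∧ N.FiniteIndex ∧ io ιP ιQ t ∉ N := by
    intro t ht
    cases t with
    | inl p =>
      refine rf_factor L hP hQ hφ hψ r hfi hr p ?_
      rintro rfl
      exact ht (by simp)
    | inr q =>
      refine rf_factor L.swap hQ hP hψ hφ r hfi hr q ?_
      rintro rfl
      exact ht (by simp)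
  have hcase : ∀ x : G, ∃ g : G, (∃ t : P ⊕ Q, x = g * io ιP ιQ t * g⁻¹) ∨
      ∃ l', CR φ ψ l' ∧ x = g * pr ιP ιQ l' * g⁻¹ := by
    intro x
    rcases red_all L.comm hgen x with ⟨s, rfl⟩ | ⟨l, -, hA, ho, rfl⟩
    · exact ⟨1, Or.inl ⟨Sum.inl (φ s), by simp⟩⟩
    · exact cyc L.comm l.length l rfl hA ho
  have hdet : ∀ x : G, (∀ n : ℤ, x ^ n = 1 → n = 0) → Det G x := by
    intro x hx
    obtain ⟨g, ⟨t, rfl⟩ | ⟨l, hl, rfl⟩⟩ := hcase x
    · apply det_conj
      apply hfac
      intro n hn
      apply hx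
      rw [conj_zpow, hn, mul_one, mul_inv_cancel]
    · apply det_conj
      exact det_hyp L hP hQ hφ hψ r hfi hr l hl
  have hdinf : ∀ x : G, Det G x → ∀ n : ℤ, x ^ n = 1 → n = 0 := by
    rintro x ⟨Ω, hΩ, Φ, ω, n, c, hc, hx⟩ k hk
    by_contra hk0
    have hpow : ∀ m : ℕ, (Φ ((x ^ n) ^ m)).1 (ω, 0) = (ω, m * c) := by
      intro m
      induction m with
      | zero => simp
      | succ m ih =>
        rw [pow_succ', map_mul]
        change (Φ (x ^ n)).1 ((Φ ((x ^ n) ^ m)).1 (ω, 0)) = _
        rw [ih, SW_apply, hx]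
        push_cast
        ring_nf
    have h1 := hpow k.natAbs
    have h2 : (x ^ n) ^ k.natAbs = 1 := by
      rcases Int.natAbs_eq k with h | h
      · rw [← zpow_natCast, ← zpow_mul, mul_comm, ← h, zpow_mul, hk, one_zpow]
      · have h' : (k.natAbs : ℤ) = -k := by omega
        rw [← zpow_natCast, ← zpow_mul, mul_comm, h', neg_mul, zpow_neg, zpow_mul, hk, one_zpow,
          inv_one]
    rw [h2, map_one] at h1
    have h3 := congrArg Prod.snd h1
    have h4 : (0 : ℤ) = k.natAbs * c := h3
    rcases mul_eq_zero.1 h4.symm with h | h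
    · omega
    · exact hc h
  intro x
  by_cases hx : IsOfFinOrder x
  · apply vr_of_torsion x hx
    intro y hy hy1
    have hyfin : IsOfFinOrder y := by
      obtain ⟨k, rfl⟩ := hy
      exact hx.zpow
    obtain ⟨g, ⟨t, rfl⟩ | ⟨l, hl, rfl⟩⟩ := hcase y
    · obtain ⟨N, h1, h2, h3⟩ := hrf t (by
        intro h
        apply hy1
        rw [h, mul_one, mul_inv_cancel])
      refine ⟨N, h1, h2, fun h4 => h3 ?_⟩
      have h5 := h1.conj_mem _ h4 g⁻¹
      have h6 : g⁻¹ * (g * io ιP ιQ t * g⁻¹) * g⁻¹⁻¹ = io ιP ιQ t := by group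
      rwa [h6] at h5
    · exfalso
      have h1 := hdinf _ (det_conj _ g (det_hyp L hP hQ hφ hψ r hfi hr l hl))
      obtain ⟨n, hn0, hn⟩ := isOfFinOrder_iff_zpow_eq_one.1 hyfin
      exact hn0 (h1 n hn)
  · apply det_vr
    apply hdet
    intro n hn
    by_contra hn0
    exact hx (isOfFinOrder_iff_zpow_eq_one.2 ⟨n, hn0, hn⟩)

end

end Q27.VR
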