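import Pool.Agent.Q27.VRC.Data

/-! Actions of amalgams on `Ω × ℤ`. -/

namespace Q27.VR

universe u v w

/-- the lifting property of an amalgam of `P` and `Q` over `R` -/
structure Lifts {R P Q G : Type u} [Group R] [Group P] [Group Q] [Group G] (φ : R →* P)
    (ψ : R →* Q) (ιP : P →* G) (ιQ : Q →* G) : Prop where
  comm : ∀ r, ιP (φ r) = ιQ (ψ r)
  lift : ∀ (W : Type u) [Group W] (f : P →* W) (g : Q →* W), (∀ r, f (φ r) = g (ψ r)) →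
    ∃ h : G →* W, (∀ p, h (ιP p) = f p) ∧ ∀ q, h (ιQ q) = g q

theorem Lifts.swap {R P Q G : Type u} [Group R] [Group P] [Group Q] [Group G] {φ : R →* P}
    {ψ : R →* Q} {ιP : P →* G} {ιQ : Q →* G} (L : Lifts φ ψ ιP ιQ) : Lifts ψ φ ιQ ιP := by
  refine ⟨fun r => (L.comm r).symm, ?_⟩
  intro W _ f g hfg
  obtain ⟨h, h1, h2⟩ := L.lift W g f (fun r => (hfg r).symm)
  exact ⟨h, h2, h1⟩

/-- action on the first factor -/
def sg1 (P : Type u) [Group P] (A : Type v) [MulAction P A] (B : Type w) :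
    P →* Equiv.Perm (A × B) :=
  MonoidHom.toHomPerm
    { toFun := fun p => (fun z => (p • z.1, z.2) : Function.End (A × B))
      map_one' := by
        funext z
        change ((1 : P) • z.1, z.2) = z
        rw [one_smul]
      map_mul' := by
        intro p q
        funext z
        change ((p * q) • z.1, z.2) = (p • q • z.1, z.2)
        rw [mul_smul] }

theorem sg1_apply (P : Type u) [Group P] (A : Type v) [MulAction P A] (B : Type w) (p : P)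
    (z : A × B) : sg1 P A B p z = (p • z.1, z.2) := rfl

/-- action on the second factor -/
def sg2 (P : Type u) [Group P] (A : Type v) [MulAction P A] (B : Type w) :
    P →* Equiv.Perm (B × A) :=
  MonoidHom.toHomPerm
    { toFun := fun p => (fun z => (z.1, p • z.2) : Function.End (B × A))
      map_one' := by
        funext z
        change (z.1, (1 : P) • z.2) = z
        rw [one_smul]
      map_mul' := by
        intro p q
        funext z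
        change (z.1, (p * q) • z.2) = (z.1, p • q • z.2)
        rw [mul_smul] }

theorem sg2_apply (P : Type u) [Group P] (A : Type v) [MulAction P A] (B : Type w) (p : P)
    (z : B × A) : sg2 P A B p z = (z.1, p • z.2) := rfl

section

variable {R P Q G : Type u} [Group R] [Group P] [Group Q] [Group G] {φ : R →* P}
    {ψ : R →* Q} {ιP : P →* G} {ιQ : Q →* G}

theorem fix_iff (φ : R →* P) (P₀ : Subgroup P) (hP : P₀.Normal) (R₀ : Subgroup R)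
    (h1 : ∀ s, φ s ∈ P₀ ↔ s ∈ R₀) (x : P ⧸ P₀) (r : R) : φ r • x = x ↔ r ∈ R₀ := by
  obtain ⟨p, rfl⟩ := QuotientGroup.mk_surjective x
  rw [← h1]
  change ((φ r * p : P) : P ⧸ P₀) = (p : P ⧸ P₀) ↔ _
  rw [eq_comm, QuotientGroup.eq, ← mul_assoc]
  constructor
  · intro h
    have h3 := hP.conj_mem _ h p
    have h4 : p * (p⁻¹ * φ r * p) * p⁻¹ = φ r := by group
    rwa [h4] at h3
  · intro h
    have := hP.conj_mem _ h p⁻¹
    rwa [inv_inv] at this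

theorem act (L : Lifts φ ψ ιP ιQ) (P₀ : Subgroup P) (hP : P₀.Normal) (Q₀ : Subgroup Q)
    (hQ : Q₀.Normal) (R₀ : Subgroup R) (h1 : ∀ s, φ s ∈ P₀ ↔ s ∈ R₀)
    (h2 : ∀ s, ψ s ∈ Q₀ ↔ s ∈ R₀) (f : P₀ →* Multiplicative ℤ) (g : Q₀ →* Multiplicative ℤ)
    (c : Q ⧸ Q₀ → ℤ) (d : P ⧸ P₀ → ℤ)
    (hm : ∀ u ∈ R₀, ∀ (t : R) (x : P ⧸ P₀) (y : Q ⧸ Q₀),
      c y * ic P₀ f (φ u) x = d (φ t • x) * ic Q₀ g (ψ u) (ψ t⁻¹ • y)) :
    ∃ Φ : G →* SW ((P ⧸ P₀) × (Q ⧸ Q₀)),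
      (∀ p x y n, (Φ (ιP p)).1 ((x, y), n) = ((p • x, y), c y * ic P₀ f p x + n)) ∧
      ∃ Θ : SW ((P ⧸ P₀) × (Q ⧸ Q₀)), ∀ q z, Θ.1 ((Φ (ιQ q)).1 z) =
        (((Θ.1 z).1.1, q • (Θ.1 z).1.2), d (Θ.1 z).1.1 * ic Q₀ g q (Θ.1 z).1.2 + (Θ.1 z).2) := by
  let instA : MulAction R (P ⧸ P₀) := MulAction.compHom (P ⧸ P₀) φ
  let instB : MulAction R (Q ⧸ Q₀) := MulAction.compHom (Q ⧸ Q₀) ψ
  obtain ⟨Θ, hΘ⟩ := matching (A := P ⧸ P₀) (B := Q ⧸ Q₀) R₀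
    (fun x r => fix_iff φ P₀ hP R₀ h1 x r) (fun y r => fix_iff ψ Q₀ hQ R₀ h2 y r)
    (fun r x => ic P₀ f (φ r) x)
    (fun r s x => by
      change ic P₀ f (φ (r * s)) x = ic P₀ f (φ r) (φ s • x) + ic P₀ f (φ s) x
      rw [map_mul, ic_mul])
    (fun r y => ic Q₀ g (ψ r) y)
    (fun r s y => by
      change ic Q₀ g (ψ (r * s)) y = ic Q₀ g (ψ r) (ψ s • y) + ic Q₀ g (ψ s) y
      rw [map_mul, ic_mul])
    c d hm
  let ΦP : P →* SW ((P ⧸ P₀) × (Q ⧸ Q₀)) := mkSW (sg1 P (P ⧸ P₀) (Q ⧸ Q₀))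
    (fun p z => c z.2 * ic P₀ f p z.1) (by
      intro p q z
      rw [sg1_apply, ic_mul]
      ring)
  let ΦQ : Q →* SW ((P ⧸ P₀) × (Q ⧸ Q₀)) := mkSW (sg2 Q (Q ⧸ Q₀) (P ⧸ P₀))
    (fun q z => d z.1 * ic Q₀ g q z.2) (by
      intro p q z
      rw [sg2_apply, ic_mul]
      ring)
  obtain ⟨Φ, hΦ1, hΦ2⟩ := L.lift (SW ((P ⧸ P₀) × (Q ⧸ Q₀))) ΦP
    ((MulAut.conj Θ⁻¹).toMonoidHom.comp ΦQ) (by
      intro r
      change ΦP (φ r) = Θ⁻¹ * ΦQ (ψ r) * Θ⁻¹⁻¹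
      rw [inv_inv, mul_assoc, eq_inv_mul_iff_mul_eq]
      apply Subtype.ext
      apply Equiv.ext
      rintro ⟨⟨x, y⟩, n⟩
      change Θ.1 ((ΦP (φ r)).1 ((x, y), n)) = (ΦQ (ψ r)).1 (Θ.1 ((x, y), n))
      have h3 : (ΦP (φ r)).1 ((x, y), n) = ((φ r • x, y), c y * ic P₀ f (φ r) x + n) := rfl
      have h4 := hΘ r x y n
      rw [h3, add_comm]
      refine h4.trans ?_
      rw [mkSW_apply, sg2_apply, add_comm]
      rfl)
  refine ⟨Φ, ?_, Θ, ?_⟩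
  · intro p x y n
    rw [hΦ1]
    rfl
  · intro q z
    rw [hΦ2]
    change Θ.1 ((Θ⁻¹ * ΦQ q * Θ⁻¹⁻¹).1 z) = _
    rw [inv_inv]
    change Θ.1 (Θ.1⁻¹ ((ΦQ q).1 (Θ.1 z))) = _
    have h3 : ∀ w, Θ.1 (Θ.1⁻¹ w) = w := fun w => Equiv.apply_symm_apply Θ.1 w
    rw [h3, mkSW_apply, sg2_apply]

theorem ic_one {K : Subgroup P} (x : P) (y : P ⧸ K) : ic K (1 : K →* Multiplicative ℤ) x y = 0 := rfl

/-- the action on the finite set -/
theorem act0 (L : Lifts φ ψ ιP ιQ) (P₀ : Subgroup P) (hP : P₀.Normal) (Q₀ : Subgroup Q)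
    (hQ : Q₀.Normal) (R₀ : Subgroup R) (h1 : ∀ s, φ s ∈ P₀ ↔ s ∈ R₀)
    (h2 : ∀ s, ψ s ∈ Q₀ ↔ s ∈ R₀) :
    ∃ τ : G →* Equiv.Perm ((P ⧸ P₀) × (Q ⧸ Q₀)),
      (∀ p x y, τ (ιP p) (x, y) = (p • x, y)) ∧
      ∃ θ : Equiv.Perm ((P ⧸ P₀) × (Q ⧸ Q₀)), ∀ q z, θ (τ (ιQ q) z) =
        ((θ z).1, q • (θ z).2) := by
  obtain ⟨Φ, hΦ1, Θ, hΘ⟩ := act L P₀ hP Q₀ hQ R₀ h1 h2 1 1 (fun _ => 0) (fun _ => 0) (by
    intro u _ t x y
    rw [zero_mul, zero_mul])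
  refine ⟨(SWperm _).comp Φ, ?_, SWperm _ Θ, ?_⟩
  · intro p x y
    change ((Φ (ιP p)).1 ((x, y), 0)).1 = _
    rw [hΦ1]
  · intro q z
    have h3 := congrArg Prod.fst (hΘ q (z, 0))
    simp only at h3
    have h4 : (Φ (ιQ q)).1 (z, 0) = (((Φ (ιQ q)).1 (z, 0)).1, ((Φ (ιQ q)).1 (z, 0)).2) := rfl
    rw [h4, SW_apply Θ] at h3
    exact h3

/-- all the data at once -/
theorem data (hP : VRC P) (hQ : VRC Q) (hφ : Function.Injective φ) (hψ : Function.Injective ψ)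
    (r : R) (hfi : (Subgroup.zpowers r).FiniteIndex) (hr : r = 1 ∨ ∀ n : ℤ, r ^ n = 1 → n = 0)
    (S : Set P) (hS : S.Finite) (hS2 : ∀ p ∈ S, p ∉ φ.range) (NP : Subgroup P) (hNP : NP.Normal)
    (hNP' : NP.FiniteIndex)
    (S' : Set Q) (hS' : S'.Finite) (hS2' : ∀ p ∈ S', p ∉ ψ.range) (NQ : Subgroup Q)
    (hNQ : NQ.Normal) (hNQ' : NQ.FiniteIndex) :
    ∃ (M : ℕ) (P₀ : Subgroup P) (Q₀ : Subgroup Q), 0 < M ∧ P₀.Normal ∧ P₀.FiniteIndex ∧ P₀ ≤ NP ∧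
      Q₀.Normal ∧ Q₀.FiniteIndex ∧ Q₀ ≤ NQ ∧
      (∀ s, φ s ∈ P₀ ↔ s ∈ Subgroup.zpowers (r ^ M)) ∧
      (∀ s, ψ s ∈ Q₀ ↔ s ∈ Subgroup.zpowers (r ^ M)) ∧
      (∀ p ∈ S, ∀ s, p * φ s ∉ P₀) ∧ (∀ q ∈ S', ∀ s, q * ψ s ∉ Q₀) := by
  obtain ⟨M₁, h1, h1'⟩ := side hP φ hφ r hfi hr S hS hS2 NP hNP hNP'
  obtain ⟨M₂, h2, h2'⟩ := side hQ ψ hψ r hfi hr S' hS' hS2' NQ hNQ hNQ'
  obtain ⟨P₀, a1, a2, a3, a4, a5⟩ := h1' M₂ h2
  obtain ⟨Q₀, b1, b2, b3, b4, b5⟩ := h2' M₁ h1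
  rw [mul_comm M₂ M₁] at b4
  exact ⟨M₁ * M₂, P₀, Q₀, Nat.mul_pos h1 h2, a1, a2, a3, b1, b2, b3, a4, b4, a5, b5⟩

theorem sep_perm (L : Lifts φ ψ ιP ιQ) (hP : VRC P) (hQ : VRC Q) (hφ : Function.Injective φ)
    (hψ : Function.Injective ψ)
    (r : R) (hfi : (Subgroup.zpowers r).FiniteIndex) (hr : r = 1 ∨ ∀ n : ℤ, r ^ n = 1 → n = 0)
    (S : Set P) (hS : S.Finite) (hS2 : ∀ p ∈ S, p ∉ φ.range)
    (S' : Set Q) (hS' : S'.Finite) (hS2' : ∀ p ∈ S', p ∉ ψ.range) :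
    ∃ (Ω : Type u) (_ : Finite Ω) (τ : G →* Equiv.Perm Ω),
      (∀ p ∈ S, ∀ s, τ (ιP p) ≠ τ (ιP (φ s))) ∧ (∀ q ∈ S', ∀ s, τ (ιQ q) ≠ τ (ιQ (ψ s))) := by
  obtain ⟨M, P₀, Q₀, hM, a1, a2, a3, b1, b2, b3, a4, b4, a5, b5⟩ := data hP hQ hφ hψ r hfi hr
    S hS hS2 ⊤ inferInstance inferInstance S' hS' hS2' ⊤ inferInstance inferInstance
  obtain ⟨τ, h1, θ, h2⟩ := act0 L P₀ a1 Q₀ b1 _ a4 b4
  have hf1 : Finite (P ⧸ P₀) := Subgroup.finite_quotient_of_finiteIndex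
  have hf2 : Finite (Q ⧸ Q₀) := Subgroup.finite_quotient_of_finiteIndex
  refine ⟨(P ⧸ P₀) × (Q ⧸ Q₀), inferInstance, τ, ?_, ?_⟩
  · intro p hp s hps
    have h3 := DFunLike.congr_fun hps (((1 : P) : P ⧸ P₀), ((1 : Q) : Q ⧸ Q₀))
    rw [h1, h1] at h3
    have h4 : ((p * 1 : P) : P ⧸ P₀) = ((φ s * 1 : P) : P ⧸ P₀) := congrArg Prod.fst h3
    rw [mul_one, mul_one, QuotientGroup.eq] at h4
    apply a5 p hp s⁻¹
    have h5 := P₀.inv_mem h4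
    rw [mul_inv_rev, inv_inv] at h5
    have h6 := a1.conj_mem _ h5 (φ s)
    rw [mul_assoc, mul_assoc, ← mul_assoc] at h6
    rw [map_inv]
    rwa [mul_inv_cancel, one_mul] at h6
  · intro q hq s hqs
    have h3 := DFunLike.congr_fun hqs (θ.symm (((1 : P) : P ⧸ P₀), ((1 : Q) : Q ⧸ Q₀)))
    have h3' := congrArg θ h3
    rw [h2, h2, Equiv.apply_symm_apply] at h3'
    have h4 : ((q * 1 : Q) : Q ⧸ Q₀) = ((ψ s * 1 : Q) : Q ⧸ Q₀) := congrArg Prod.snd h3'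
    rw [mul_one, mul_one, QuotientGroup.eq] at h4
    apply b5 q hq s⁻¹
    have h5 := Q₀.inv_mem h4
    rw [mul_inv_rev, inv_inv] at h5
    have h6 := b1.conj_mem _ h5 (ψ s)
    rw [mul_assoc, mul_assoc, ← mul_assoc] at h6
    rw [map_inv]
    rwa [mul_inv_cancel, one_mul] at h6

theorem rf_factor (L : Lifts φ ψ ιP ιQ) (hP : VRC P) (hQ : VRC Q) (hφ : Function.Injective φ)
    (hψ : Function.Injective ψ)
    (r : R) (hfi : (Subgroup.zpowers r).FiniteIndex) (hr : r = 1 ∨ ∀ n : ℤ, r ^ n = 1 → n = 0)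
    (x : P) (hx : x ≠ 1) : ∃ N : Subgroup G, N.Normal ∧ N.FiniteIndex ∧ ιP x ∉ N := by
  obtain ⟨NP, hNP, hNP', hxN⟩ := vrc_rf hP x hx
  obtain ⟨M, P₀, Q₀, hM, a1, a2, a3, b1, b2, b3, a4, b4, a5, b5⟩ := data hP hQ hφ hψ r hfi hr
    ∅ Set.finite_empty (fun _ h => h.elim) NP hNP hNP' ∅ Set.finite_empty (fun _ h => h.elim) ⊤
    inferInstance inferInstance
  obtain ⟨τ, h1, θ, h2⟩ := act0 L P₀ a1 Q₀ b1 _ a4 b4
  have hf1 : Finite (P ⧸ P₀) := Subgroup.finite_quotient_of_finiteIndex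
  have hf2 : Finite (Q ⧸ Q₀) := Subgroup.finite_quotient_of_finiteIndex
  refine ⟨τ.ker, inferInstance, Subgroup.finiteIndex_ker τ, ?_⟩
  intro hmem
  have h3 : τ (ιP x) = 1 := hmem
  have h4 := DFunLike.congr_fun h3 (((1 : P) : P ⧸ P₀), ((1 : Q) : Q ⧸ Q₀))
  rw [h1] at h4
  have h5 : ((x * 1 : P) : P ⧸ P₀) = ((1 : P) : P ⧸ P₀) := congrArg Prod.fst h4
  rw [mul_one, eq_comm, QuotientGroup.eq, inv_one, one_mul] at h5
  exact hxN (a3 h5)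

theorem zpow_triv {K : Subgroup P} (f : K →* Multiplicative ℤ) (u : P)
    (hu : ∀ x : P ⧸ K, u • x = x) (k : ℤ) (x : P ⧸ K) : ic K f (u ^ k) x = k * ic K f u x := by
  have h1 : ∀ x : P ⧸ K, ic K f 1 x = 0 := by
    intro x
    have := ic_mul K f 1 1 x
    rw [mul_one, one_smul] at this
    omega
  have hnat : ∀ n : ℕ, ic K f (u ^ n) x = n * ic K f u x := by
    intro n
    induction n with
    | zero => rw [pow_zero, h1]; simp
    | succ n ih =>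
      rw [pow_succ, ic_mul, hu, ih]
      push_cast
      ring
  obtain ⟨n, rfl | rfl⟩ := k.eq_nat_or_neg
  · rw [zpow_natCast, hnat]
  · have h2 := ic_mul K f (u ^ n)⁻¹ (u ^ n) x
    have h3 : ∀ n : ℕ, (u ^ n) • x = x := by
      intro n
      induction n with
      | zero => rw [pow_zero, one_smul]
      | succ n ih => rw [pow_succ, mul_smul, hu, ih]
    rw [inv_mul_cancel, h1, h3, hnat] at h2
    rw [zpow_neg, zpow_natCast]
    linarith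

theorem conj_val {K : Subgroup P} (f : K →* Multiplicative ℤ) (u t : P) (ε : ℤ)
    (hu : ∀ x : P ⧸ K, u • x = x) (ht : u * t = t * u ^ ε) (x : P ⧸ K) :
    ic K f u (t • x) = ε * ic K f u x := by
  have h1 := ic_mul K f u t x
  rw [ht, ic_mul] at h1
  have h2 : (u ^ ε) • x = x := by
    obtain ⟨n, rfl | rfl⟩ := ε.eq_nat_or_neg
    · rw [zpow_natCast]
      clear ht h1
      induction n with
      | zero => rw [pow_zero, one_smul]
      | succ n ih => rw [pow_succ, mul_smul, hu, ih]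
    · rw [zpow_neg, zpow_natCast, inv_smul_eq_iff]
      clear ht h1
      induction n with
      | zero => rw [pow_zero, one_smul]
      | succ n ih => rw [pow_succ, mul_smul, hu, ← ih]
  rw [h2, zpow_triv f u hu] at h1
  linarith

theorem det_factor (L : Lifts φ ψ ιP ιQ) (hP : VRC P) (hQ : VRC Q) (hφ : Function.Injective φ)
    (hψ : Function.Injective ψ)
    (r : R) (hfi : (Subgroup.zpowers r).FiniteIndex) (hrn : (Subgroup.zpowers r).Normal)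
    (hr : r = 1 ∨ ∀ n : ℤ, r ^ n = 1 → n = 0)
    (x : P) (hx : ∀ n : ℤ, x ^ n = 1 → n = 0) : Det G (ιP x) := by
  obtain ⟨NP, hNP, hNP', fP, hfP⟩ := vrc_char hP x hx
  rcases hr with rfl | hr
  · -- the edge group is finite
    obtain ⟨M, P₀, Q₀, hM, a1, a2, a3, b1, b2, b3, a4, b4, a5, b5⟩ := data hP hQ hφ hψ 1 hfi
      (Or.inl rfl)
      ∅ Set.finite_empty (fun _ h => h.elim) NP hNP hNP' ∅ Set.finite_empty (fun _ h => h.elim) ⊤
      inferInstance inferInstance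
    obtain ⟨Φ, h1, Θ, h2⟩ := act L P₀ a1 Q₀ b1 _ a4 b4 (fP.comp (Subgroup.inclusion a3)) 1
      (fun _ => 1) (fun _ => 0) (by
        intro u hu t x y
        rw [one_pow, Subgroup.zpowers_one_eq_bot, Subgroup.mem_bot] at hu
        rw [hu, map_one, zero_mul, one_mul]
        have := ic_mul P₀ (fP.comp (Subgroup.inclusion a3)) 1 1 x
        rw [mul_one, one_smul] at this
        omega)
    have hf1 : Finite (P ⧸ P₀) := Subgroup.finite_quotient_of_finiteIndex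
    have hf2 : Finite (Q ⧸ Q₀) := Subgroup.finite_quotient_of_finiteIndex
    have hmem : x ^ (P₀.index : ℤ) ∈ P₀ := by
      rw [zpow_natCast]
      exact Subgroup.pow_index_mem P₀ x
    refine ⟨(P ⧸ P₀) × (Q ⧸ Q₀), inferInstance, Φ, (((1 : P) : P ⧸ P₀), ((1 : Q) : Q ⧸ Q₀)),
      P₀.index, P₀.index, Int.natCast_ne_zero.2 a2.index_ne_zero, ?_⟩
    rw [← map_zpow, h1, ic_base _ _ _ hmem]
    have h3 : x ^ (P₀.index : ℤ) • ((1 : P) : P ⧸ P₀) = ((1 : P) : P ⧸ P₀) := by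
      change ((x ^ (P₀.index : ℤ) * 1 : P) : P ⧸ P₀) = _
      rw [eq_comm, QuotientGroup.eq, inv_one, one_mul, mul_one]
      exact hmem
    have h4 : (fP.comp (Subgroup.inclusion a3)) ⟨x ^ (P₀.index : ℤ), hmem⟩ =
        Multiplicative.ofAdd (P₀.index : ℤ) := hfP _ (a3 hmem)
    rw [h3, h4, toAdd_ofAdd, one_mul, add_zero]
  · -- the edge group is infinite
    obtain ⟨NQ, hNQ, hNQ', fQ, hfQ⟩ := vrc_char hQ (ψ r) (by
      intro n hn
      apply hr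
      apply hψ
      rw [map_zpow, hn, map_one])
    obtain ⟨M, P₀, Q₀, hM, a1, a2, a3, b1, b2, b3, a4, b4, a5, b5⟩ := data hP hQ hφ hψ r hfi
      (Or.inr hr)
      ∅ Set.finite_empty (fun _ h => h.elim) NP hNP hNP' ∅ Set.finite_empty (fun _ h => h.elim) NQ
      hNQ hNQ'
    obtain ⟨r₀, hr₀⟩ : ∃ r₀, r₀ = r ^ M := ⟨_, rfl⟩
    rw [← hr₀] at a4 b4
    have hinf : ∀ n : ℤ, r₀ ^ n = 1 → n = 0 := by
      intro n hn
      rw [hr₀, ← zpow_natCast, ← zpow_mul] at hn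
      have := hr _ hn
      rcases mul_eq_zero.1 this with h | h
      · exfalso; omega
      · exact h
    have hconj : ∀ t : R, ∃ ε : ℤ, r₀ * t = t * r₀ ^ ε := by
      intro t
      have h1 : t⁻¹ * r * t⁻¹⁻¹ ∈ Subgroup.zpowers r :=
        hrn.conj_mem r (Subgroup.mem_zpowers r) t⁻¹
      obtain ⟨ε, hε⟩ := Subgroup.mem_zpowers_iff.1 h1
      refine ⟨ε, ?_⟩
      rw [hr₀, ← zpow_natCast, ← zpow_mul, mul_comm (M : ℤ) ε, zpow_mul, hε, inv_inv]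
      have h2 : (t⁻¹ * r * t) ^ (M : ℤ) = t⁻¹ * r ^ (M : ℤ) * t := by
        have := conj_zpow (i := (M : ℤ)) (a := t⁻¹) (b := r)
        rwa [inv_inv] at this
      rw [h2]
      group
    have hPt : ∀ x : P ⧸ P₀, φ r₀ • x = x := fun x =>
      (fix_iff φ P₀ a1 _ a4 x r₀).2 (Subgroup.mem_zpowers _)
    have hQt : ∀ y : Q ⧸ Q₀, ψ r₀ • y = y := fun y =>
      (fix_iff ψ Q₀ b1 _ b4 y r₀).2 (Subgroup.mem_zpowers _)
    obtain ⟨f, hf⟩ : ∃ f : P₀ →* Multiplicative ℤ, f = fP.comp (Subgroup.inclusion a3) := ⟨_, rfl⟩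
    obtain ⟨g, hg⟩ : ∃ g : Q₀ →* Multiplicative ℤ, g = fQ.comp (Subgroup.inclusion b3) := ⟨_, rfl⟩
    obtain ⟨Φ, h1, Θ, h2⟩ := act L P₀ a1 Q₀ b1 _ a4 b4 f g
      (fun y => ic Q₀ g (ψ r₀) y) (fun x => ic P₀ f (φ r₀) x) (by
        intro u hu t x y
        obtain ⟨k, rfl⟩ := Subgroup.mem_zpowers_iff.1 hu
        obtain ⟨ε, hε⟩ := hconj t
        obtain ⟨ε', hε'⟩ := hconj t⁻¹
        have hεε : ε * ε' = 1 := by
          have e1 : r₀ ^ (ε * ε' - 1) = 1 := by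
            have e2 : r₀ = r₀ ^ (ε * ε') := by
              have e3 : r₀ ^ ε = t⁻¹ * r₀ * t := by rw [mul_assoc, hε, inv_mul_cancel_left]
              have e4 : r₀ ^ ε' = t * r₀ * t⁻¹ := by
                rw [mul_assoc, hε', mul_inv_cancel_left]
              rw [zpow_mul, e3]
              have e5 := conj_zpow (i := ε') (a := t⁻¹) (b := r₀)
              rw [inv_inv] at e5
              rw [e5, e4]
              group
            rw [zpow_sub, zpow_one, ← e2, mul_inv_cancel]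
          have := hinf _ e1
          omega
        rw [map_zpow, map_zpow, zpow_triv f _ hPt, zpow_triv g _ hQt,
          conj_val f (φ r₀) (φ t) ε hPt (by rw [← map_mul, hε, map_mul, map_zpow]),
          conj_val g (ψ r₀) (ψ t⁻¹) ε' hQt (by rw [← map_mul, hε', map_mul, map_zpow])]
        have : ε * ic P₀ f (φ r₀) x * (k * (ε' * ic Q₀ g (ψ r₀) y)) =
          (ε * ε') * (ic P₀ f (φ r₀) x * (k * ic Q₀ g (ψ r₀) y)) := by ring
        rw [this, hεε]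
        ring)
    have hf1 : Finite (P ⧸ P₀) := Subgroup.finite_quotient_of_finiteIndex
    have hf2 : Finite (Q ⧸ Q₀) := Subgroup.finite_quotient_of_finiteIndex
    have hmem : x ^ (P₀.index : ℤ) ∈ P₀ := by
      rw [zpow_natCast]
      exact Subgroup.pow_index_mem P₀ x
    have hQmem : ψ r₀ ∈ Q₀ := (b4 r₀).2 (Subgroup.mem_zpowers _)
    have hval : ic Q₀ g (ψ r₀) ((1 : Q) : Q ⧸ Q₀) = M := by
      rw [ic_base _ _ _ hQmem]
      have h5 : (⟨ψ r₀, hQmem⟩ : Q₀) = ⟨(ψ r) ^ (M : ℤ), by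
          rw [← map_zpow, zpow_natCast, ← hr₀]; exact hQmem⟩ := by
        apply Subtype.ext
        change ψ r₀ = (ψ r) ^ (M : ℤ)
        rw [← map_zpow, zpow_natCast, ← hr₀]
      rw [h5, hg]
      have h6 : (fQ.comp (Subgroup.inclusion b3)) ⟨(ψ r) ^ (M : ℤ), by
          rw [← map_zpow, zpow_natCast, ← hr₀]; exact hQmem⟩ = Multiplicative.ofAdd (M : ℤ) :=
        hfQ M _
      rw [h6, toAdd_ofAdd]
    refine ⟨(P ⧸ P₀) × (Q ⧸ Q₀), inferInstance, Φ, (((1 : P) : P ⧸ P₀), ((1 : Q) : Q ⧸ Q₀)),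
      P₀.index, M * P₀.index,
      mul_ne_zero (by omega) (Int.natCast_ne_zero.2 a2.index_ne_zero), ?_⟩
    rw [← map_zpow, h1, ic_base _ _ _ hmem, hval]
    have h3 : x ^ (P₀.index : ℤ) • ((1 : P) : P ⧸ P₀) = ((1 : P) : P ⧸ P₀) := by
      change ((x ^ (P₀.index : ℤ) * 1 : P) : P ⧸ P₀) = _
      rw [eq_comm, QuotientGroup.eq, inv_one, one_mul, mul_one]
      exact hmem
    have h4 : f ⟨x ^ (P₀.index : ℤ), hmem⟩ = Multiplicative.ofAdd (P₀.index : ℤ) := by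
      rw [hf]
      exact hfP _ (a3 hmem)
    rw [h3, h4, toAdd_ofAdd, add_zero]

end

end Q27.VR
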