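import Pool.Agent.Q27.VRC.Defs

/-! Virtual retractions onto cyclic subgroups: basic consequences and criteria. -/

namespace Q27.VR

universe u

variable {G : Type u} [Group G]

/-- working form of the hypothesis -/
theorem vrc_hom (h : VRC G) (g : G) : ∃ K : Subgroup G, K.FiniteIndex ∧ ∃ hg : g ∈ K,
    ∃ ρ : K →* G, (∀ k, ρ k ∈ Subgroup.zpowers g) ∧ ρ ⟨g, hg⟩ = g := by
  obtain ⟨K, hK, hle, ρ, hρ⟩ := h g
  refine ⟨K, hK, hle (Subgroup.mem_zpowers g), (Subgroup.subtype _).comp ρ, fun k => (ρ k).2, ?_⟩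
  exact congrArg Subtype.val (hρ ⟨g, Subgroup.mem_zpowers g⟩)

/-- restricting a finite-index subgroup of a subgroup -/
theorem fi_map (K : Subgroup G) (hK : K.FiniteIndex) (L : Subgroup K) (hL : L.FiniteIndex) :
    (L.map K.subtype).FiniteIndex := by
  constructor
  rw [Subgroup.index_map_subtype]
  exact mul_ne_zero hL.index_ne_zero hK.index_ne_zero

theorem fi_comap {A B : Type*} [Group A] [Group B] (f : A →* B) (L : Subgroup B)
    (hL : L.FiniteIndex) : (L.comap f).FiniteIndex := by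
  constructor
  rw [Subgroup.index_comap]
  exact (inferInstance : (L.subgroupOf f.range).FiniteIndex).index_ne_zero

/-- infinite order elements of (VRC) groups are detected by virtual homomorphisms to `ℤ` -/
theorem vrc_char (h : VRC G) (g : G) (hg : ∀ n : ℤ, g ^ n = 1 → n = 0) :
    ∃ N : Subgroup G, N.Normal ∧ N.FiniteIndex ∧ ∃ f : N →* Multiplicative ℤ,
      ∀ (n : ℤ) (hn : g ^ n ∈ N), f ⟨g ^ n, hn⟩ = Multiplicative.ofAdd n := by
  obtain ⟨K, hK, hgK, ρ, h1, h2⟩ := vrc_hom h g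
  have hinj : ∀ m n : ℤ, g ^ m = g ^ n → m = n := by
    intro m n hmn
    have : g ^ (m - n) = 1 := by rw [zpow_sub, hmn, mul_inv_cancel]
    have := hg _ this
    omega
  choose e he using fun k : K => Subgroup.mem_zpowers_iff.1 (h1 k)
  have hle : K.normalCore ≤ K := K.normalCore_le
  refine ⟨K.normalCore, inferInstance, inferInstance,
    { toFun := fun x => Multiplicative.ofAdd (e (Subgroup.inclusion hle x))
      map_one' := ?_
      map_mul' := ?_ }, ?_⟩
  · rw [map_one, ofAdd_eq_one]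
    apply hinj
    rw [he, map_one, zpow_zero]
  · intro x y
    rw [← ofAdd_add]
    congr 1
    apply hinj
    rw [he, zpow_add, he, he, map_mul, map_mul]
  · intro n hn
    change Multiplicative.ofAdd (e _) = _
    congr 1
    apply hinj
    rw [he]
    have : Subgroup.inclusion hle ⟨g ^ n, hn⟩ = (⟨g, hgK⟩ : K) ^ n := Subtype.ext (by simp)
    rw [this, map_zpow, h2]

/-- (VRC) groups are residually finite -/
theorem vrc_rf (h : VRC G) (g : G) (hg : g ≠ 1) :
    ∃ N : Subgroup G, N.Normal ∧ N.FiniteIndex ∧ g ∉ N := by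
  obtain ⟨K, hK, hgK, ρ, h1, h2⟩ := vrc_hom h g
  -- a finite-index subgroup of `⟨g⟩` avoiding `g`
  by_cases hfin : IsOfFinOrder g
  · have hfz : Finite (Subgroup.zpowers g) := hfin.finite_zpowers
    have hker : ρ.ker.FiniteIndex := by
      have : Finite ρ.range := by
        apply Set.Finite.subset (s := (Subgroup.zpowers g : Set G)) (Set.toFinite _)
        rintro _ ⟨k, rfl⟩
        exact h1 k
      exact Subgroup.finiteIndex_ker ρ
    have hfi := fi_map K hK ρ.ker hker
    refine ⟨(ρ.ker.map K.subtype).normalCore, inferInstance, inferInstance, fun hmem => ?_⟩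
    obtain ⟨k, hk1, hk2⟩ := Subgroup.normalCore_le _ hmem
    have : k = ⟨g, hgK⟩ := Subtype.ext hk2
    rw [this] at hk1
    have h3 : ρ ⟨g, hgK⟩ = 1 := hk1
    rw [h2] at h3
    exact hg h3
  · have hinf : ∀ n : ℤ, g ^ n = 1 → n = 0 := by
      intro n hn
      by_contra hne
      exact hfin (isOfFinOrder_iff_zpow_eq_one.2 ⟨n, hne, hn⟩)
    obtain ⟨N, hN1, hN2, f, hf⟩ := vrc_char h g hinf
    by_cases hgN : g ∈ N
    · obtain ⟨L, hL⟩ : ∃ L : Subgroup (Multiplicative ℤ),
        L = Subgroup.zpowers (Multiplicative.ofAdd 2) := ⟨_, rfl⟩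
      have hLfi : L.FiniteIndex := by
        rw [hL]
        constructor
        have : (AddSubgroup.zmultiples (2 : ℤ)).index = 2 := Int.index_zmultiples 2
        have h3 : (Subgroup.zpowers (Multiplicative.ofAdd (2 : ℤ))).index =
          (AddSubgroup.zmultiples (2 : ℤ)).index := rfl
        rw [h3, this]
        norm_num
      have hfi := fi_map N hN2 _ (fi_comap f L hLfi)
      refine ⟨((L.comap f).map N.subtype).normalCore, inferInstance, inferInstance, fun hmem => ?_⟩
      obtain ⟨k, hk1, hk2⟩ := Subgroup.normalCore_le _ hmem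
      have hk : k = ⟨g, hgN⟩ := Subtype.ext hk2
      rw [hk] at hk1
      have h3 : f ⟨g, hgN⟩ ∈ L := hk1
      have h4 : f ⟨g ^ (1 : ℤ), by rwa [zpow_one]⟩ = Multiplicative.ofAdd 1 := hf 1 _
      have h5 : (⟨g, hgN⟩ : N) = ⟨g ^ (1 : ℤ), by rwa [zpow_one]⟩ := Subtype.ext (zpow_one g).symm
      rw [h5, h4, hL, Subgroup.mem_zpowers_iff] at h3
      obtain ⟨k, hk⟩ := h3
      have h6 : k * 2 = 1 := by
        have := congrArg Multiplicative.toAdd hk
        rwa [toAdd_zpow, toAdd_ofAdd, toAdd_ofAdd, smul_eq_mul] at this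
      omega
    · exact ⟨N, hN1, hN2, hgN⟩

/-- (VRC) groups are cyclic subgroup separable -/
theorem vrc_css (h : VRC G) (r s : G) (hs : s ∉ Subgroup.zpowers r) :
    ∃ N : Subgroup G, N.Normal ∧ N.FiniteIndex ∧ ∀ j : ℤ, s * r ^ j ∉ N := by
  obtain ⟨K, hK, hrK, ρ, h1, h2⟩ := vrc_hom h r
  by_cases hsK : s ∈ K
  · have hu : s * (ρ ⟨s, hsK⟩)⁻¹ ≠ 1 := by
      intro h3
      rw [mul_inv_eq_one] at h3
      apply hs
      rw [h3]
      exact h1 _
    obtain ⟨N, hN1, hN2, hN3⟩ := vrc_rf h _ hu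
    have hfi1 := fi_map K hK _ (fi_comap ρ N hN2)
    refine ⟨(((N.comap ρ).map K.subtype) ⊓ N).normalCore, inferInstance, inferInstance, ?_⟩
    intro j hj
    obtain ⟨hj1, hj2⟩ := Subgroup.normalCore_le _ hj
    obtain ⟨k, hk1, hk2⟩ := hj1
    have hk : k = ⟨s, hsK⟩ * ⟨r, hrK⟩ ^ j := Subtype.ext (by simpa using hk2)
    rw [hk] at hk1
    have h3 : ρ (⟨s, hsK⟩ * ⟨r, hrK⟩ ^ j) ∈ N := hk1
    rw [map_mul, map_zpow, h2] at h3
    apply hN3
    have h4 := N.mul_mem hj2 (N.inv_mem h3)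
    rwa [mul_inv_rev, ← mul_assoc, mul_assoc s, mul_inv_cancel, mul_one] at h4
  · refine ⟨K.normalCore, inferInstance, inferInstance, fun j hj => hsK ?_⟩
    have h3 := K.normalCore_le hj
    have h4 := K.mul_mem h3 (K.inv_mem (K.zpow_mem hrK j))
    rwa [mul_assoc, mul_inv_cancel, mul_one] at h4

/-- finitely many elements at once -/
theorem vrc_css_finite (h : VRC G) (r : G) (S : Set G) (hS : S.Finite)
    (hs : ∀ s ∈ S, s ∉ Subgroup.zpowers r) :
    ∃ N : Subgroup G, N.Normal ∧ N.FiniteIndex ∧ ∀ s ∈ S, ∀ j : ℤ, s * r ^ j ∉ N := by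
  have hfin : Finite S := hS
  choose N hN1 hN2 hN3 using fun s : S => vrc_css h r s.1 (hs s.1 s.2)
  refine ⟨⨅ s, N s, Subgroup.normal_iInf_normal hN1, Subgroup.finiteIndex_iInf hN2, ?_⟩
  intro s hs j hj
  exact hN3 ⟨s, hs⟩ j ((Subgroup.mem_iInf.1 hj) ⟨s, hs⟩)

/-- a criterion for virtual retracts -/
theorem vr_of (D : Subgroup G) (x : G) (h1 : ∀ d ∈ D, x * d * x⁻¹ ∈ D)
    (h1' : ∀ d ∈ D, x⁻¹ * d * x ∈ D) (h2 : ∀ i : ℤ, x ^ i ∈ D → x ^ i = 1)
    (L : Subgroup G) (hL : L.FiniteIndex) (hL2 : ∀ g ∈ L, ∃ i : ℤ, g * x ^ i ∈ D) :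
    IsVirtualRetract (Subgroup.zpowers x) := by
  have hconj : ∀ (i : ℤ) (d : G), d ∈ D → x ^ i * d * (x ^ i)⁻¹ ∈ D := by
    intro i
    induction i with
    | zero => intro d hd; simpa using hd
    | succ i ih =>
      intro d hd
      have := h1 _ (ih d hd)
      convert this using 1
      rw [add_comm, zpow_add, zpow_one]
      group
    | pred i ih =>
      intro d hd
      have := h1' _ (ih d hd)
      convert this using 1
      rw [show (-(i : ℤ) - 1) = -1 + -(i : ℤ) by ring, zpow_add, zpow_neg_one]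
      group
  let K : Subgroup G :=
    { carrier := {g | ∃ i : ℤ, g * x ^ i ∈ D}
      one_mem' := ⟨0, by simp⟩
      mul_mem' := by
        rintro g h ⟨i, hi⟩ ⟨j, hj⟩
        refine ⟨j + i, ?_⟩
        have h3 := hconj (-i) _ hj
        have h4 := D.mul_mem hi h3
        convert h4 using 1
        rw [zpow_add, zpow_neg]
        group
      inv_mem' := by
        rintro g ⟨i, hi⟩
        refine ⟨-i, ?_⟩
        have h3 := hconj i _ (D.inv_mem hi)
        convert h3 using 1
        group }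
  have hKL : L ≤ K := fun g hg => hL2 g hg
  have hKfi : K.FiniteIndex := Subgroup.finiteIndex_of_le hKL
  have hxK : Subgroup.zpowers x ≤ K := by
    rw [Subgroup.zpowers_le]
    exact ⟨-1, by simp⟩
  choose e he using fun k : K => k.2
  have huniq : ∀ (k : K) (i : ℤ), (k : G) * x ^ i ∈ D → x ^ i = x ^ (e k) := by
    intro k i hi
    have h3 := D.mul_mem (D.inv_mem (he k)) hi
    have h4 : ((k : G) * x ^ e k)⁻¹ * ((k : G) * x ^ i) = x ^ (i - e k) := by
      have : ((k : G) * x ^ e k)⁻¹ * ((k : G) * x ^ i) = (x ^ e k)⁻¹ * x ^ i := by group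
      rw [this, ← zpow_neg, ← zpow_add, sub_eq_add_neg, add_comm]
    rw [h4] at h3
    have h5 := h2 _ h3
    rw [zpow_sub, mul_inv_eq_one] at h5
    exact h5
  refine ⟨K, hKfi, hxK,
    { toFun := fun k => ⟨x ^ (-(e k)), ⟨-(e k), rfl⟩⟩
      map_one' := ?_
      map_mul' := ?_ }, ?_⟩
  · apply Subtype.ext
    change x ^ (-(e 1)) = 1
    have := huniq 1 0 (by simp)
    rw [zpow_neg, ← this, zpow_zero, inv_one]
  · intro k l
    apply Subtype.ext
    change x ^ (-(e (k * l))) = x ^ (-(e k)) * x ^ (-(e l))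
    have h3 := hconj (-(e k)) _ (he l)
    have h4 := D.mul_mem (he k) h3
    have h5 := huniq (k * l) (e l + e k) (by
      convert h4 using 1
      rw [zpow_add, zpow_neg]
      simp only [Subgroup.coe_mul]
      group)
    rw [zpow_neg, ← h5, ← zpow_neg, ← zpow_add]
    congr 1
    ring
  · rintro ⟨y, i, rfl⟩
    apply Subtype.ext
    change x ^ (-(e _)) = x ^ i
    have := huniq (Subgroup.inclusion hxK ⟨x ^ i, i, rfl⟩) (-i) (by
      change x ^ i * x ^ (-i) ∈ D
      rw [← zpow_add, add_neg_cancel, zpow_zero]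
      exact D.one_mem)
    rw [zpow_neg, ← this, zpow_neg, inv_inv]

end Q27.VR
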