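import Pool.Agent.Q27.VRC.Basic

/-! Criteria for cyclic subgroups to be virtual retracts. -/

namespace Q27.VR

universe u

variable {G : Type u} [Group G]

/-- finite cyclic subgroups of residually finite groups -/
theorem vr_of_torsion (x : G) (hx : IsOfFinOrder x)
    (h : ∀ y ∈ Subgroup.zpowers x, y ≠ 1 → ∃ N : Subgroup G, N.Normal ∧ N.FiniteIndex ∧ y ∉ N) :
    IsVirtualRetract (Subgroup.zpowers x) := by
  have hfz : Finite (Subgroup.zpowers x) := hx.finite_zpowers
  have h' : ∀ y : Subgroup.zpowers x, ∃ N : Subgroup G, N.Normal ∧ N.FiniteIndex ∧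
      ((y : G) ∈ N → (y : G) = 1) := by
    intro y
    by_cases hy : (y : G) = 1
    · exact ⟨⊤, inferInstance, inferInstance, fun _ => hy⟩
    · obtain ⟨N, h1, h2, h3⟩ := h y y.2 hy
      exact ⟨N, h1, h2, fun h4 => absurd h4 h3⟩
  choose N hN1 hN2 hN3 using h'
  have hD : (⨅ y, N y).Normal := Subgroup.normal_iInf_normal hN1
  refine vr_of (⨅ y, N y) x (fun d hd => hD.conj_mem d hd x) (fun d hd => ?_) (fun i hi => ?_)
    (⨅ y, N y) (Subgroup.finiteIndex_iInf hN2) (fun g hg => ⟨0, by simpa using hg⟩)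
  · have := hD.conj_mem d hd x⁻¹
    rwa [inv_inv] at this
  · exact hN3 ⟨x ^ i, i, rfl⟩ ((Subgroup.mem_iInf.1 hi) _)

/-- infinite order elements detected by a virtual homomorphism to `ℤ` -/
theorem vr_of_char (x : G) (N : Subgroup G) (hN : N.Normal) (hfi : N.FiniteIndex)
    (f : N →* Multiplicative ℤ) (n : ℤ) (hn : x ^ n ∈ N) (hf : f ⟨x ^ n, hn⟩ ≠ 1) :
    IsVirtualRetract (Subgroup.zpowers x) := by
  obtain ⟨m, hm⟩ : ∃ m, m = N.index := ⟨_, rfl⟩
  have hm0 : m ≠ 0 := by rw [hm]; exact hfi.index_ne_zero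
  have hxm : x ^ m ∈ N := by rw [hm]; exact Subgroup.pow_index_mem N x
  obtain ⟨c, hc⟩ : ∃ c : ℤ, c = Multiplicative.toAdd (f ⟨x ^ m, hxm⟩) := ⟨_, rfl⟩
  have hc0 : c ≠ 0 := by
    intro h0
    apply hf
    have h1 : (⟨x ^ n, hn⟩ : N) ^ m = (⟨x ^ m, hxm⟩ : N) ^ n := by
      apply Subtype.ext
      simp only [SubgroupClass.coe_zpow, SubmonoidClass.coe_pow]
      rw [← zpow_natCast, ← zpow_natCast, ← zpow_mul, ← zpow_mul, mul_comm]
    have h2 := congrArg (fun z => Multiplicative.toAdd (f z)) h1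
    simp only [map_pow, map_zpow, toAdd_pow, toAdd_zpow, ← hc, h0, smul_zero] at h2
    rcases smul_eq_zero.1 h2 with h3 | h3
    · exact absurd h3 hm0
    · exact h3
  let φ : N →* Multiplicative ℤ :=
    ∏ i ∈ Finset.range m, f.comp (MulAut.conjNormal (x ^ i)).toMonoidHom
  have hφ : ∀ k, φ k = ∏ i ∈ Finset.range m, f (MulAut.conjNormal (x ^ i) k) := by
    intro k
    exact MonoidHom.finsetProd_apply _ _ _
  have hinv : ∀ k, φ (MulAut.conjNormal x k) = φ k := by
    intro k
    rw [hφ, hφ]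
    have h1 : ∀ i, f (MulAut.conjNormal (x ^ i) (MulAut.conjNormal x k)) =
        f (MulAut.conjNormal (x ^ (i + 1)) k) := by
      intro i
      rw [pow_succ, map_mul]
      rfl
    simp only [h1]
    have h2 := Finset.prod_range_succ (fun i => f (MulAut.conjNormal (x ^ i) k)) m
    rw [Finset.prod_range_succ'] at h2
    have h3 : f (MulAut.conjNormal (x ^ m) k) = f (MulAut.conjNormal (x ^ 0) k) := by
      have h4 : MulAut.conjNormal (x ^ m) k = ⟨x ^ m, hxm⟩ * k * ⟨x ^ m, hxm⟩⁻¹ := by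
        apply Subtype.ext
        rw [MulAut.conjNormal_apply]
        rfl
      rw [h4, map_mul, map_mul, map_inv, mul_right_comm, mul_inv_cancel, one_mul, pow_zero,
        map_one]
      rfl
    rw [h3] at h2
    exact mul_right_cancel h2
  have hinv' : ∀ k, φ (MulAut.conjNormal x⁻¹ k) = φ k := by
    intro k
    rw [← hinv (MulAut.conjNormal x⁻¹ k)]
    congr 1
    rw [map_inv]
    exact MulAut.apply_inv_self _ _ _
  have hφx : φ ⟨x ^ m, hxm⟩ = Multiplicative.ofAdd (m * c) := by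
    rw [hφ]
    have h1 : ∀ i ∈ Finset.range m, f (MulAut.conjNormal (x ^ i) ⟨x ^ m, hxm⟩) =
        Multiplicative.ofAdd c := by
      intro i _
      rw [hc, ofAdd_toAdd]
      congr 1
      apply Subtype.ext
      rw [MulAut.conjNormal_apply]
      change x ^ i * x ^ m * (x ^ i)⁻¹ = x ^ m
      rw [← pow_add, add_comm, pow_add, mul_inv_cancel_right]
    rw [Finset.prod_congr rfl h1, Finset.prod_const, Finset.card_range, ← ofAdd_nsmul,
      nsmul_eq_mul]
  let L : Subgroup G := ((Subgroup.zpowers (Multiplicative.ofAdd ((m : ℤ) * c))).comap φ).map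
    N.subtype
  have hLfi : L.FiniteIndex := by
    apply fi_map N hfi
    apply fi_comap
    constructor
    have h3 : (Subgroup.zpowers (Multiplicative.ofAdd ((m : ℤ) * c))).index =
      (AddSubgroup.zmultiples ((m : ℤ) * c)).index := rfl
    rw [h3, Int.index_zmultiples]
    exact Int.natAbs_ne_zero.2 (mul_ne_zero (Int.natCast_ne_zero.2 hm0) hc0)
  have hmem : ∀ k : N, (k : G) ∈ φ.ker.map N.subtype ↔ φ k = 1 := by
    intro k
    constructor
    · rintro ⟨k', h1, h2⟩
      have : k' = k := Subtype.ext h2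
      rw [← this]
      exact h1
    · intro h1
      exact ⟨k, h1, rfl⟩
  refine vr_of (φ.ker.map N.subtype) x ?_ ?_ ?_ L hLfi ?_
  · rintro _ ⟨k, hk, rfl⟩
    refine ⟨MulAut.conjNormal x k, ?_, MulAut.conjNormal_apply x k⟩
    have hk' : φ k = 1 := hk
    change φ _ = 1
    rw [hinv, hk']
  · rintro _ ⟨k, hk, rfl⟩
    refine ⟨MulAut.conjNormal x⁻¹ k, ?_, ?_⟩
    · have hk' : φ k = 1 := hk
      change φ _ = 1
      rw [hinv', hk']
    · change ((MulAut.conjNormal x⁻¹ k : N) : G) = _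
      rw [MulAut.conjNormal_apply, inv_inv]
      rfl
  · rintro i ⟨k, hk, hki⟩
    have hk' : φ k = 1 := hk
    have h1 : k ^ m = ⟨x ^ m, hxm⟩ ^ i := by
      apply Subtype.ext
      have hki' : (k : G) = x ^ i := hki
      simp only [SubgroupClass.coe_zpow, SubmonoidClass.coe_pow, hki']
      rw [← zpow_natCast, ← zpow_natCast, ← zpow_mul, ← zpow_mul, mul_comm]
    have h2 := congrArg (fun z => Multiplicative.toAdd (φ z)) h1
    simp only [map_pow, map_zpow, hk', one_pow, toAdd_one, hφx, toAdd_zpow, toAdd_ofAdd,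
      smul_eq_mul] at h2
    have h3 : i = 0 := by
      rcases mul_eq_zero.1 h2.symm with h | h
      · exact h
      · exact absurd h (mul_ne_zero (Int.natCast_ne_zero.2 hm0) hc0)
    rw [h3, zpow_zero]
  · rintro _ ⟨k, hk, rfl⟩
    obtain ⟨j, hj⟩ := Subgroup.mem_zpowers_iff.1 (show φ k ∈ Subgroup.zpowers _ from hk)
    refine ⟨-(m * j), ?_⟩
    have h1 : N.subtype k * x ^ (-((m : ℤ) * j)) = ((k * (⟨x ^ m, hxm⟩ ^ j)⁻¹ : N) : G) := by
      simp only [Subgroup.subtype_apply, Subgroup.coe_mul, InvMemClass.coe_inv,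
        SubgroupClass.coe_zpow]
      rw [zpow_neg, zpow_mul, zpow_natCast]
    rw [h1, hmem, map_mul, map_inv, map_zpow, hφx, hj, mul_inv_cancel]

end Q27.VR
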