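import Pool.Agent.Q27.VRC.Match

/-! Normal subgroups of finite index with a prescribed intersection with the edge group, and
induced cocycles. -/

namespace Q27.VR

universe u v

section side

variable {P R : Type u} [Group P] [Group R]

theorem nsub (h : VRC P) (φ : R →* P) (hφ : Function.Injective φ) (r : R)
    (hr : ∀ n : ℤ, r ^ n = 1 → n = 0) (N₁ : Subgroup P) (hN₁ : N₁.Normal) (hN₁' : N₁.FiniteIndex)
    (hs : ∀ s, φ s ∈ N₁ → s ∈ Subgroup.zpowers r) :
    ∃ M : ℕ, 0 < M ∧ ∀ n : ℕ, 0 < n → ∃ P₀ : Subgroup P, P₀.Normal ∧ P₀.FiniteIndex ∧ P₀ ≤ N₁ ∧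
      ∀ s, φ s ∈ P₀ ↔ s ∈ Subgroup.zpowers (r ^ (M * n)) := by
  have hφr : ∀ n : ℤ, (φ r) ^ n = 1 → n = 0 := by
    intro n hn
    apply hr
    apply hφ
    rw [map_zpow, hn, map_one]
  obtain ⟨N, hN, hNfi, f, hf⟩ := vrc_char h (φ r) hφr
  let K : Subgroup P := N ⊓ N₁
  have hKn : K.Normal := inferInstance
  have hKfi : K.FiniteIndex := inferInstance
  -- the exponents of the powers of `φ r` in `K`
  let J : AddSubgroup ℤ :=
    { carrier := {j | (φ r) ^ j ∈ K}
      zero_mem' := by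
        change (φ r) ^ (0 : ℤ) ∈ K
        rw [zpow_zero]
        exact K.one_mem
      add_mem' := by
        intro i j hi hj
        change (φ r) ^ (i + j) ∈ K
        rw [zpow_add]
        exact K.mul_mem hi hj
      neg_mem' := by
        intro i hi
        change (φ r) ^ (-i) ∈ K
        rw [zpow_neg]
        exact K.inv_mem hi }
  obtain ⟨m, hm⟩ := Int.subgroup_cyclic J
  have hJ : ∀ j, (φ r) ^ j ∈ K ↔ m ∣ j := by
    intro j
    change j ∈ J ↔ _
    rw [hm, AddSubgroup.mem_closure_singleton]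
    constructor
    · rintro ⟨k, rfl⟩
      exact ⟨k, by rw [smul_eq_mul, mul_comm]⟩
    · rintro ⟨k, rfl⟩
      exact ⟨k, by rw [smul_eq_mul, mul_comm]⟩
  have hmK : (φ r) ^ m ∈ K := (hJ m).2 dvd_rfl
  have hm0 : m ≠ 0 := by
    rintro rfl
    have h1 : (φ r) ^ (K.index : ℤ) ∈ K := by
      rw [zpow_natCast]
      exact Subgroup.pow_index_mem K _
    rw [hJ, zero_dvd_iff] at h1
    exact hKfi.index_ne_zero (by exact_mod_cast h1)
  have hconj : ∀ p : P, ∀ k : ℤ, p * (φ r) ^ (m * k) * p⁻¹ ∈ N := by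
    intro p k
    apply hN.conj_mem
    exact ((hJ (m * k)).2 (dvd_mul_right _ _)).1
  let e : P → ℤ := fun p => Multiplicative.toAdd (f ⟨p * (φ r) ^ m * p⁻¹, by
    have := hconj p 1
    rwa [mul_one] at this⟩)
  have he : ∀ (p : P) (k : ℤ), Multiplicative.toAdd (f ⟨p * (φ r) ^ (m * k) * p⁻¹, hconj p k⟩) =
      k * e p := by
    intro p k
    have h1 : (⟨p * (φ r) ^ (m * k) * p⁻¹, hconj p k⟩ : N) = ⟨p * (φ r) ^ m * p⁻¹, by
        have := hconj p 1
        rwa [mul_one] at this⟩ ^ k := by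
      apply Subtype.ext
      rw [SubgroupClass.coe_zpow]
      change p * (φ r) ^ (m * k) * p⁻¹ = (p * (φ r) ^ m * p⁻¹) ^ k
      rw [conj_zpow, zpow_mul]
    rw [h1, map_zpow, toAdd_zpow, smul_eq_mul]
  have he1 : e 1 = m := by
    have h1 := hf m hmK.1
    change Multiplicative.toAdd (f _) = m
    have h2 : (⟨1 * (φ r) ^ m * 1⁻¹, by
      have := hconj 1 1
      rwa [mul_one] at this⟩ : N) = ⟨(φ r) ^ m, hmK.1⟩ := by
      apply Subtype.ext
      simp
    rw [h2, h1, toAdd_ofAdd]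
  obtain ⟨E, hE⟩ := (IsPrincipalIdealRing.principal (Ideal.span (Set.range e))).principal
  have hEe : ∀ p, E ∣ e p := by
    intro p
    have h1 : e p ∈ Ideal.span (Set.range e) := Ideal.subset_span ⟨p, rfl⟩
    rw [hE] at h1
    exact Ideal.mem_span_singleton.1 h1
  have hE0 : E ≠ 0 := by
    rintro rfl
    have h1 := hEe 1
    rw [he1, zero_dvd_iff] at h1
    exact hm0 h1
  have hEdiv : ∀ D j : ℤ, (∀ p, D ∣ j * e p) → D ∣ j * E := by
    intro D j hD
    have h1 : E ∈ Ideal.span (Set.range e) := by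
      rw [hE]
      exact Submodule.mem_span_singleton_self E
    refine Submodule.span_induction (p := fun z _ => D ∣ j * z) ?_ ?_ ?_ ?_ h1
    · rintro _ ⟨p, rfl⟩
      exact hD p
    · rw [mul_zero]
      exact dvd_zero D
    · intro x y _ _ hx hy
      rw [mul_add]
      exact dvd_add hx hy
    · intro z x _ hx
      rw [smul_eq_mul, mul_left_comm]
      exact dvd_mul_of_dvd_right hx z
  refine ⟨m.natAbs, Int.natAbs_pos.2 hm0, fun n hn => ?_⟩
  have hn0 : (n : ℤ) ≠ 0 := by exact_mod_cast hn.ne'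
  let L : Subgroup P := ((Subgroup.zpowers (Multiplicative.ofAdd (E * n))).comap f).map N.subtype ⊓ K
  have hLfi : L.FiniteIndex := by
    have h1 : (((Subgroup.zpowers (Multiplicative.ofAdd (E * (n : ℤ)))).comap f).map
        N.subtype).FiniteIndex := by
      apply fi_map N hNfi
      apply fi_comap
      constructor
      have h3 : (Subgroup.zpowers (Multiplicative.ofAdd (E * (n : ℤ)))).index =
        (AddSubgroup.zmultiples (E * (n : ℤ))).index := rfl
      rw [h3, Int.index_zmultiples]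
      exact Int.natAbs_ne_zero.2 (mul_ne_zero hE0 hn0)
    infer_instance
  have hLmem : ∀ k (hk : k ∈ N), k ∈ K → (k ∈ L ↔ E * n ∣ Multiplicative.toAdd (f ⟨k, hk⟩)) := by
    intro k hk hkK
    constructor
    · rintro ⟨⟨k', hk1, hk2⟩, -⟩
      have h1 : k' = ⟨k, hk⟩ := Subtype.ext hk2
      rw [h1] at hk1
      obtain ⟨j, hj⟩ := Subgroup.mem_zpowers_iff.1 (show f ⟨k, hk⟩ ∈ Subgroup.zpowers _ from hk1)
      rw [← hj, toAdd_zpow, toAdd_ofAdd, smul_eq_mul]
      exact dvd_mul_left _ _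
    · rintro ⟨j, hj⟩
      refine ⟨⟨⟨k, hk⟩, ?_, rfl⟩, hkK⟩
      change f ⟨k, hk⟩ ∈ Subgroup.zpowers _
      rw [Subgroup.mem_zpowers_iff]
      refine ⟨j, ?_⟩
      apply Multiplicative.toAdd.injective
      rw [hj, toAdd_zpow, toAdd_ofAdd, smul_eq_mul, mul_comm]
  have hM : ∀ s, s ∈ Subgroup.zpowers (r ^ (m.natAbs * n)) ↔ ∃ k : ℤ, s = r ^ (m * (n * k)) := by
    intro s
    rw [Subgroup.mem_zpowers_iff]
    rcases Int.natAbs_eq m with h1 | h1
    · constructor
      · rintro ⟨k, rfl⟩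
        refine ⟨k, ?_⟩
        rw [← zpow_natCast, ← zpow_mul]
        congr 1
        push_cast
        have : |m| = m := by rw [Int.natCast_natAbs] at h1; exact h1.symm
        rw [this]
        ring
      · rintro ⟨k, rfl⟩
        refine ⟨k, ?_⟩
        rw [← zpow_natCast, ← zpow_mul]
        congr 1
        push_cast
        have : |m| = m := by rw [Int.natCast_natAbs] at h1; exact h1.symm
        rw [this]
        ring
    · have h2 : |m| = -m := by rw [Int.natCast_natAbs] at h1; omega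
      constructor
      · rintro ⟨k, rfl⟩
        refine ⟨-k, ?_⟩
        rw [← zpow_natCast, ← zpow_mul]
        congr 1
        push_cast
        rw [h2]
        ring
      · rintro ⟨k, rfl⟩
        refine ⟨-k, ?_⟩
        rw [← zpow_natCast, ← zpow_mul]
        congr 1
        push_cast
        rw [h2]
        ring
  refine ⟨L.normalCore, inferInstance, inferInstance, ?_, ?_⟩
  · exact (L.normalCore_le).trans (inf_le_right.trans inf_le_right)
  · intro s
    rw [hM]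
    constructor
    · intro h1
      have hsK : φ s ∈ K := (L.normalCore_le h1).2
      obtain ⟨j, rfl⟩ := Subgroup.mem_zpowers_iff.1 (hs s hsK.2)
      rw [map_zpow] at h1 hsK
      obtain ⟨k, rfl⟩ := (hJ j).1 hsK
      have h2 : ∀ p, E * n ∣ k * e p := by
        intro p
        have h3 : p * (φ r) ^ (m * k) * p⁻¹ ∈ L := h1 p
        rw [hLmem _ (hconj p k) (hKn.conj_mem _ hsK p), he] at h3
        exact h3
      have h4 := hEdiv _ _ h2
      rw [mul_comm k E, mul_dvd_mul_iff_left hE0] at h4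
      obtain ⟨l, rfl⟩ := h4
      exact ⟨l, rfl⟩
    · rintro ⟨k, rfl⟩
      intro p
      have h5 : (φ r) ^ (m * (n * k)) ∈ K := (hJ _).2 (dvd_mul_right _ _)
      change p * φ (r ^ (m * (n * k))) * p⁻¹ ∈ L
      rw [map_zpow, hLmem _ (hconj p _) (hKn.conj_mem _ h5 p), he]
      obtain ⟨l, hl⟩ := hEe p
      exact ⟨k * l, by rw [hl]; ring⟩

theorem side (h : VRC P) (φ : R →* P) (hφ : Function.Injective φ) (r : R)
    (hfi : (Subgroup.zpowers r).FiniteIndex) (hr : r = 1 ∨ ∀ n : ℤ, r ^ n = 1 → n = 0)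
    (S : Set P) (hS : S.Finite) (hS2 : ∀ p ∈ S, p ∉ φ.range) (NP : Subgroup P) (hNP : NP.Normal)
    (hNP' : NP.FiniteIndex) :
    ∃ M : ℕ, 0 < M ∧ ∀ n : ℕ, 0 < n → ∃ P₀ : Subgroup P, P₀.Normal ∧ P₀.FiniteIndex ∧ P₀ ≤ NP ∧
      (∀ s, φ s ∈ P₀ ↔ s ∈ Subgroup.zpowers (r ^ (M * n))) ∧ ∀ p ∈ S, ∀ s, p * φ s ∉ P₀ := by
  have hfq : Finite (R ⧸ Subgroup.zpowers r) := Subgroup.finite_quotient_of_finiteIndex
  let S₁ : Set P := Set.range (fun q : {q : R ⧸ Subgroup.zpowers r // q.out ∉ Subgroup.zpowers r} =>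
    φ q.1.out)
  let S₂ : Set P := ⋃ p ∈ S, Set.range (fun q : R ⧸ Subgroup.zpowers r => p * φ q.out)
  have hS₁ : S₁.Finite := Set.finite_range _
  have hS₂ : S₂.Finite := hS.biUnion (fun p _ => Set.finite_range _)
  have hnot : ∀ s ∈ S₁ ∪ S₂, s ∉ Subgroup.zpowers (φ r) := by
    rintro s (⟨⟨q, hq⟩, rfl⟩ | hs2)
    · intro h1
      obtain ⟨k, hk⟩ := Subgroup.mem_zpowers_iff.1 h1
      apply hq
      rw [Subgroup.mem_zpowers_iff]
      refine ⟨k, hφ ?_⟩
      rw [map_zpow]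
      exact hk
    · simp only [S₂, Set.mem_iUnion, Set.mem_range] at hs2
      obtain ⟨p, hp, q, rfl⟩ := hs2
      intro h1
      obtain ⟨k, hk⟩ := Subgroup.mem_zpowers_iff.1 h1
      apply hS2 p hp
      refine ⟨r ^ k * (q.out)⁻¹, ?_⟩
      rw [map_mul, map_zpow, hk, map_inv, mul_inv_cancel_right]
  obtain ⟨N₀, h1, h2, h3⟩ := vrc_css_finite h (φ r) (S₁ ∪ S₂) (hS₁.union hS₂) hnot
  have key : ∀ s : R, ∃ (q : R ⧸ Subgroup.zpowers r) (k : ℤ), s = q.out * r ^ k := by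
    intro s
    obtain ⟨⟨z, k, rfl⟩, hz⟩ := QuotientGroup.mk_out_eq_mul (Subgroup.zpowers r) s
    refine ⟨(s : R ⧸ Subgroup.zpowers r), -k, ?_⟩
    rw [hz]
    change s = s * r ^ k * r ^ (-k)
    rw [mul_assoc, ← zpow_add, add_neg_cancel, zpow_zero, mul_one]
  have h4 : ∀ s, φ s ∈ N₀ → s ∈ Subgroup.zpowers r := by
    intro s hs
    obtain ⟨q, k, rfl⟩ := key s
    by_cases hq : q.out ∈ Subgroup.zpowers r
    · exact (Subgroup.zpowers r).mul_mem hq ⟨k, rfl⟩
    · exfalso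
      refine h3 (φ q.out) (Or.inl ⟨⟨q, hq⟩, rfl⟩) k ?_
      rwa [← map_zpow, ← map_mul]
  have h5 : ∀ p ∈ S, ∀ s, p * φ s ∉ N₀ := by
    intro p hp s hs
    obtain ⟨q, k, rfl⟩ := key s
    refine h3 (p * φ q.out) (Or.inr ?_) k ?_
    · simp only [S₂, Set.mem_iUnion, Set.mem_range]
      exact ⟨p, hp, q, rfl⟩
    · rwa [map_mul, map_zpow, ← mul_assoc] at hs
  have hN : (N₀ ⊓ NP).Normal := inferInstance
  have hN' : (N₀ ⊓ NP).FiniteIndex := inferInstance
  rcases hr with rfl | hr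
  · refine ⟨1, one_pos, fun n _ => ⟨N₀ ⊓ NP, hN, hN', inf_le_right, ?_, ?_⟩⟩
    · intro s
      rw [one_pow]
      constructor
      · intro hs
        exact h4 s hs.1
      · intro hs
        rw [Subgroup.zpowers_one_eq_bot, Subgroup.mem_bot] at hs
        rw [hs, map_one]
        exact (N₀ ⊓ NP).one_mem
    · intro p hp s hs
      exact h5 p hp s hs.1
  · obtain ⟨M, hM, hM2⟩ := nsub h φ hφ r hr (N₀ ⊓ NP) hN hN' (fun s hs => h4 s hs.1)
    refine ⟨M, hM, fun n hn => ?_⟩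
    obtain ⟨P₀, e1, e2, e3, e4⟩ := hM2 n hn
    exact ⟨P₀, e1, e2, e3.trans inf_le_right, e4, fun p hp s hs => h5 p hp s (e3 hs).1⟩

end side

section ind

variable {G : Type u} [Group G] (K : Subgroup G) (f : K →* Multiplicative ℤ)

theorem ic_mem (g : G) (x : G ⧸ K) : ((g • x).out)⁻¹ * g * x.out ∈ K := by
  rw [mul_assoc, ← QuotientGroup.eq]
  have h1 : ((g • x).out : G ⧸ K) = g • x := Quotient.out_eq' _
  have h2 : ((g * x.out : G) : G ⧸ K) = g • ((x.out : G) : G ⧸ K) := rfl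
  have h3 : ((x.out : G) : G ⧸ K) = x := Quotient.out_eq' _
  rw [h1, h2, h3]

/-- the induced cocycle -/
noncomputable def ic (g : G) (x : G ⧸ K) : ℤ :=
  Multiplicative.toAdd (f ⟨((g • x).out)⁻¹ * g * x.out, ic_mem K g x⟩)

theorem ic_mul (g h : G) (x : G ⧸ K) : ic K f (g * h) x = ic K f g (h • x) + ic K f h x := by
  unfold ic
  rw [← toAdd_mul, ← map_mul]
  congr 2
  apply Subtype.ext
  simp only [Subgroup.coe_mul, mul_smul]
  group

theorem ic_base (g : G) (hg : g ∈ K) : ic K f g ((1 : G) : G ⧸ K) = Multiplicative.toAdd (f ⟨g, hg⟩) := by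
  have h1 : g • ((1 : G) : G ⧸ K) = ((1 : G) : G ⧸ K) := by
    change ((g * 1 : G) : G ⧸ K) = _
    rw [QuotientGroup.eq, mul_one, mul_one]
    exact K.inv_mem hg
  obtain ⟨z, hz⟩ := QuotientGroup.mk_out_eq_mul K (1 : G)
  rw [one_mul] at hz
  unfold ic
  have h2 : (⟨((g • ((1 : G) : G ⧸ K)).out)⁻¹ * g * (((1 : G) : G ⧸ K)).out, ic_mem K g _⟩ : K) =
      z⁻¹ * ⟨g, hg⟩ * z := by
    apply Subtype.ext
    change ((g • ((1 : G) : G ⧸ K)).out)⁻¹ * g * (((1 : G) : G ⧸ K)).out = (z : G)⁻¹ * g * z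
    rw [h1, hz]
  rw [h2]
  congr 1
  rw [map_mul, map_mul, map_inv, mul_right_comm, inv_mul_cancel, one_mul]

end ind

end Q27.VR
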