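import Mathlib

/-! Virtual retracts, property (VRC), virtually cyclic groups. -/

namespace Q27.VR

universe u

/-- A subgroup `H` of `G` is a virtual retract of `G` if there are a subgroup `K` of finite index
in `G` containing `H` and a homomorphism `ρ : K → H` whose restriction to `H` is the identity. -/
def IsVirtualRetract {G : Type u} [Group G] (H : Subgroup G) : Prop :=
  ∃ K : Subgroup G, K.FiniteIndex ∧ ∃ h : H ≤ K, ∃ ρ : K →* H, ∀ x : H,
    ρ (Subgroup.inclusion h x) = x

/-- A group has property (VRC) if all its cyclic subgroups are virtual retracts. -/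
def VRC (G : Type u) [Group G] : Prop := ∀ g : G, IsVirtualRetract (Subgroup.zpowers g)

/-- A group is virtually cyclic if it has a cyclic subgroup of finite index. -/
def VirtuallyCyclic (G : Type u) [Group G] : Prop :=
  ∃ C : Subgroup G, IsCyclic C ∧ C.FiniteIndex

end Q27.VR
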