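import Pool.Agent.Q27.VRC.Crit

/-! Permutations of `Ω × ℤ` commuting with the shift, and the matching lemma. -/

namespace Q27.VR

universe u v w

/-- permutations of `Ω × ℤ` commuting with the translations of the second coordinate -/
def SW (Ω : Type u) : Subgroup (Equiv.Perm (Ω × ℤ)) where
  carrier := {w | ∀ ω n, w (ω, n) = ((w (ω, 0)).1, (w (ω, 0)).2 + n)}
  one_mem' := by
    intro ω n
    simp
  mul_mem' := by
    intro v w hv hw ω n
    simp only [Equiv.Perm.coe_mul, Function.comp_apply]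
    rw [hw ω n, hv, hv (w (ω, 0)).1 (w (ω, 0)).2]
    simp [add_assoc]
  inv_mem' := by
    intro w hw ω n
    have hw' : ∀ ω n, w (ω, n) = ((w (ω, 0)).1, (w (ω, 0)).2 + n) := hw
    obtain ⟨z, hz⟩ : ∃ z, z = w⁻¹ (ω, 0) := ⟨_, rfl⟩
    rw [← hz, Equiv.Perm.inv_eq_iff_eq]
    have h1 : w z = (ω, 0) := by rw [hz]; exact Equiv.apply_symm_apply w _
    have h2 := hw' z.1 z.2
    have h3 := hw' z.1 (z.2 + n)
    rw [h3]
    have h4 : w (z.1, z.2) = (ω, 0) := h1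
    rw [h4] at h2
    have h5 := congrArg Prod.fst h2
    have h6 := congrArg Prod.snd h2
    simp only at h5 h6
    rw [← h5, ← add_assoc, ← h6, zero_add]

theorem mem_SW {Ω : Type u} (w : Equiv.Perm (Ω × ℤ)) :
    w ∈ SW Ω ↔ ∀ ω n, w (ω, n) = ((w (ω, 0)).1, (w (ω, 0)).2 + n) := Iff.rfl

theorem SW_apply {Ω : Type u} (w : SW Ω) (ω : Ω) (n : ℤ) :
    w.1 (ω, n) = ((w.1 (ω, 0)).1, (w.1 (ω, 0)).2 + n) := w.2 ω n

/-- the underlying permutation -/
def SWperm (Ω : Type u) : SW Ω →* Equiv.Perm Ω :=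
  MonoidHom.toHomPerm
    { toFun := fun w => (fun ω => (w.1 (ω, 0)).1 : Function.End Ω)
      map_one' := by
        funext ω
        rfl
      map_mul' := by
        intro v w
        funext ω
        change (v.1 (w.1 (ω, 0))).1 = (v.1 ((w.1 (ω, 0)).1, 0)).1
        rw [SW_apply v (w.1 (ω, 0)).1 (w.1 (ω, 0)).2] }

theorem SWperm_apply {Ω : Type u} (w : SW Ω) (ω : Ω) : SWperm Ω w ω = (w.1 (ω, 0)).1 := rfl

/-- the homomorphism given by an action and a cocycle -/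
def mkSW {G : Type v} [Group G] {Ω : Type u} (σ : G →* Equiv.Perm Ω) (a : G → Ω → ℤ)
    (ha : ∀ g h ω, a (g * h) ω = a g (σ h ω) + a h ω) : G →* SW Ω :=
  (MonoidHom.toHomPerm
    { toFun := fun g => (fun z => (σ g z.1, a g z.1 + z.2) : Function.End (Ω × ℤ))
      map_one' := by
        funext z
        have h1 := ha 1 1 z.1
        rw [map_one, mul_one, Equiv.Perm.one_apply] at h1
        have h2 : a 1 z.1 = 0 := by omega
        change (σ 1 z.1, a 1 z.1 + z.2) = z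
        rw [map_one, h2, zero_add]
        rfl
      map_mul' := by
        intro g h
        funext z
        change (σ (g * h) z.1, a (g * h) z.1 + z.2) =
          (σ g (σ h z.1), a g (σ h z.1) + (a h z.1 + z.2))
        rw [map_mul, ha, add_assoc]
        rfl }).codRestrict (SW Ω) (by
      intro g ω n
      change (σ g ω, a g ω + n) = (σ g ω, a g ω + 0 + n)
      rw [add_zero])

theorem mkSW_apply {G : Type v} [Group G] {Ω : Type u} (σ : G →* Equiv.Perm Ω) (a : G → Ω → ℤ)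
    (ha : ∀ g h ω, a (g * h) ω = a g (σ h ω) + a h ω) (g : G) (z : Ω × ℤ) :
    (mkSW σ a ha g).1 z = (σ g z.1, a g z.1 + z.2) := rfl

/-- a virtual homomorphism to `ℤ` detects the infinite order element `x` -/
def Det (G : Type u) [Group G] (x : G) : Prop :=
  ∃ (Ω : Type u) (_ : Finite Ω) (Φ : G →* SW Ω) (ω : Ω) (n c : ℤ), c ≠ 0 ∧
    (Φ (x ^ n)).1 (ω, 0) = (ω, c)

theorem det_vr {G : Type u} [Group G] (x : G) (h : Det G x) :
    IsVirtualRetract (Subgroup.zpowers x) := by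
  obtain ⟨Ω, hΩ, Φ, ω, n, c, hc, hx⟩ := h
  let N : Subgroup G := ((SWperm Ω).comp Φ).ker
  have hNfi : N.FiniteIndex := Subgroup.finiteIndex_ker _
  have hfix : ∀ k : N, ((Φ k).1 (ω, 0)).1 = ω := by
    intro k
    have h1 : SWperm Ω (Φ k) = 1 := k.2
    have h2 := DFunLike.congr_fun h1 ω
    exact h2
  let f : N →* Multiplicative ℤ :=
    { toFun := fun k => Multiplicative.ofAdd ((Φ k).1 (ω, 0)).2
      map_one' := by
        simp
      map_mul' := by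
        intro k l
        rw [← ofAdd_add]
        congr 1
        rw [Subgroup.coe_mul, map_mul]
        change ((Φ k).1 ((Φ l).1 (ω, 0))).2 = _
        have h1 : (Φ l).1 (ω, 0) = (ω, ((Φ l).1 (ω, 0)).2) := Prod.ext (hfix l) rfl
        rw [h1, SW_apply]}
  have hpow : ∀ m : ℕ, (Φ ((x ^ n) ^ m)).1 (ω, 0) = (ω, m * c) := by
    intro m
    induction m with
    | zero => simp
    | succ m ih =>
      rw [pow_succ', map_mul]
      change (Φ (x ^ n)).1 ((Φ ((x ^ n) ^ m)).1 (ω, 0)) = _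
      rw [ih, SW_apply, hx]
      push_cast
      ring_nf
  have hm0 : N.index ≠ 0 := hNfi.index_ne_zero
  have hmem : x ^ (n * (N.index : ℤ)) ∈ N := by
    rw [zpow_mul, zpow_natCast]
    exact Subgroup.pow_index_mem N _
  refine vr_of_char x N inferInstance hNfi f (n * (N.index : ℤ)) hmem ?_
  change Multiplicative.ofAdd ((Φ (x ^ (n * (N.index : ℤ)))).1 (ω, 0)).2 ≠ 1
  rw [zpow_mul, zpow_natCast, hpow, Ne, ofAdd_eq_one]
  exact mul_ne_zero (Int.natCast_ne_zero.2 hm0) hc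

theorem det_conj {G : Type u} [Group G] (x g : G) (h : Det G x) : Det G (g * x * g⁻¹) := by
  obtain ⟨Ω, hΩ, Φ, ω, n, c, hc, hx⟩ := h
  obtain ⟨z, hz⟩ : ∃ z, z = (Φ g).1 (ω, 0) := ⟨_, rfl⟩
  refine ⟨Ω, hΩ, Φ, z.1, n, c, hc, ?_⟩
  have h1 : (g * x * g⁻¹) ^ n = g * x ^ n * g⁻¹ := conj_zpow
  have h2 : (Φ (g * x ^ n * g⁻¹)).1 z = (z.1, z.2 + c) := by
    rw [map_mul, map_mul, map_inv, hz]
    change (Φ g).1 ((Φ (x ^ n)).1 ((Φ g).1⁻¹ ((Φ g).1 (ω, 0)))) = _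
    have h3 : (Φ g).1⁻¹ ((Φ g).1 (ω, 0)) = (ω, 0) := Equiv.symm_apply_apply (Φ g).1 _
    rw [h3, hx, SW_apply]
  have h3 : (Φ (g * x ^ n * g⁻¹)).1 (z.1, z.2) = (z.1, z.2 + c) := h2
  rw [SW_apply] at h3
  rw [h1]
  have h4 := congrArg Prod.fst h3
  have h5 := congrArg Prod.snd h3
  simp only at h4 h5
  exact Prod.ext h4 (by simp only; omega)

section matching

variable {R : Type u} {A : Type v} {B : Type w} [Group R] [MulAction R A] [MulAction R B]

/-- sections of actions all of whose stabilizers are equal to `R₀` -/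
theorem exists_sec (R₀ : Subgroup R) (hA : ∀ (x : A) (r : R), r • x = x → r ∈ R₀) :
    ∃ s : A → R, ∀ (r : R) (x : A), (s (r • x))⁻¹ * (r * s x) ∈ R₀ := by
  let bs : A → A := fun x => (Quotient.mk (MulAction.orbitRel R A) x).out
  have h1 : ∀ x, ∃ r : R, r • bs x = x := by
    intro x
    have h2 : (MulAction.orbitRel R A) (bs x) x := Quotient.mk_out (s := MulAction.orbitRel R A) x
    rw [MulAction.orbitRel_apply] at h2
    obtain ⟨r, hr⟩ := h2
    exact ⟨r⁻¹, by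
      change r • x = bs x at hr
      rw [← hr, inv_smul_smul]⟩
  choose s hs using h1
  have h3 : ∀ (r : R) (x : A), bs (r • x) = bs x := by
    intro r x
    have : Quotient.mk (MulAction.orbitRel R A) (r • x) = Quotient.mk (MulAction.orbitRel R A) x := by
      apply Quotient.sound
      change (MulAction.orbitRel R A) (r • x) x
      rw [MulAction.orbitRel_apply]
      exact ⟨r, rfl⟩
    change (Quotient.mk (MulAction.orbitRel R A) (r • x)).out = _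
    rw [this]
  refine ⟨s, fun r x => hA (bs x) _ ?_⟩
  rw [mul_smul, mul_smul, hs, inv_smul_eq_iff]
  have := hs (r • x)
  rw [h3] at this
  exact this.symm

theorem matching (R₀ : Subgroup R) (hA : ∀ (x : A) (r : R), r • x = x ↔ r ∈ R₀)
    (hB : ∀ (y : B) (r : R), r • y = y ↔ r ∈ R₀) (a : R → A → ℤ)
    (ha : ∀ r s x, a (r * s) x = a r (s • x) + a s x) (b : R → B → ℤ)
    (hb : ∀ r s y, b (r * s) y = b r (s • y) + b s y) (c : B → ℤ) (d : A → ℤ)
    (hm : ∀ u ∈ R₀, ∀ (t : R) (x : A) (y : B), c y * a u x = d (t • x) * b u (t⁻¹ • y)) :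
    ∃ Θ : SW (A × B), ∀ (r : R) (x : A) (y : B) (n : ℤ),
      Θ.1 ((r • x, y), n + c y * a r x) =
        (((Θ.1 ((x, y), n)).1.1, r • (Θ.1 ((x, y), n)).1.2),
          (Θ.1 ((x, y), n)).2 + d (Θ.1 ((x, y), n)).1.1 * b r (Θ.1 ((x, y), n)).1.2) := by
  obtain ⟨sA, hsA⟩ := exists_sec (A := A) R₀ (fun x r => (hA x r).1)
  obtain ⟨sB, hsB⟩ := exists_sec (A := B) R₀ (fun x r => (hB x r).1)
  let t : A → B → R := fun x y => sB y * (sA x)⁻¹
  have trivA : ∀ (u : R) (x : A), u ∈ R₀ → u • x = x := fun u x hu => (hA x u).2 hu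
  have trivB : ∀ (u : R) (y : B), u ∈ R₀ → u • y = y := fun u y hu => (hB y u).2 hu
  let θ₁ : A → B → A := fun x y => t x y • x
  let θ₂ : A → B → B := fun x y => (t x y)⁻¹ • y
  have eqv₁ : ∀ (r : R) x y, θ₁ (r • x) y = θ₁ x y := by
    intro r x y
    obtain ⟨u, hu⟩ : ∃ u, u = (sA (r • x))⁻¹ * (r * sA x) := ⟨_, rfl⟩
    have hu0 : u ∈ R₀ := by rw [hu]; exact hsA r x
    have e : sA (r • x) = r * sA x * u⁻¹ := by rw [hu]; group
    change (sB y * (sA (r • x))⁻¹) • r • x = (sB y * (sA x)⁻¹) • x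
    have e2 : (sB y * (sA (r • x))⁻¹) • r • x = sB y • u • (sA x)⁻¹ • x := by
      simp only [← mul_smul]
      congr 1
      rw [e]
      group
    rw [e2, trivA u _ hu0, mul_smul]
  have eqv₂ : ∀ (r : R) x y, θ₂ (r • x) y = r • θ₂ x y := by
    intro r x y
    obtain ⟨u, hu⟩ : ∃ u, u = (sA (r • x))⁻¹ * (r * sA x) := ⟨_, rfl⟩
    have hu0 : u ∈ R₀ := by rw [hu]; exact hsA r x
    have e : sA (r • x) = r * sA x * u⁻¹ := by rw [hu]; group
    change (sB y * (sA (r • x))⁻¹)⁻¹ • y = r • (sB y * (sA x)⁻¹)⁻¹ • y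
    have e2 : (sB y * (sA (r • x))⁻¹)⁻¹ • y = r • sA x • u⁻¹ • (sB y)⁻¹ • y := by
      simp only [← mul_smul]
      congr 1
      rw [e]
      group
    rw [e2, trivB u⁻¹ _ (R₀.inv_mem hu0)]
    simp only [← mul_smul]
    congr 1
    group
  have hinv : ∀ x y, θ₁ (θ₁ x y) (θ₂ x y) = x ∧ θ₂ (θ₁ x y) (θ₂ x y) = y := by
    intro x y
    obtain ⟨u₁, hu₁⟩ : ∃ u, u = (sA (t x y • x))⁻¹ * (t x y * sA x) := ⟨_, rfl⟩
    obtain ⟨u₂, hu₂⟩ : ∃ u, u = (sB ((t x y)⁻¹ • y))⁻¹ * ((t x y)⁻¹ * sB y) := ⟨_, rfl⟩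
    have hu₁0 : u₁ ∈ R₀ := by rw [hu₁]; exact hsA _ x
    have hu₂0 : u₂ ∈ R₀ := by rw [hu₂]; exact hsB _ y
    have e₁ : sA (t x y • x) = sB y * u₁⁻¹ := by
      rw [hu₁]
      change _ = sB y * ((sA (t x y • x))⁻¹ * ((sB y * (sA x)⁻¹) * sA x))⁻¹
      group
    have e₂ : sB ((t x y)⁻¹ • y) = sA x * u₂⁻¹ := by
      rw [hu₂]
      change _ = sA x * ((sB ((t x y)⁻¹ • y))⁻¹ * ((sB y * (sA x)⁻¹)⁻¹ * sB y))⁻¹
      group
    constructor
    · change (sB ((t x y)⁻¹ • y) * (sA (t x y • x))⁻¹) • (sB y * (sA x)⁻¹) • x = x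
      rw [e₁, e₂]
      have e3 : (sA x * u₂⁻¹ * (sB y * u₁⁻¹)⁻¹) • (sB y * (sA x)⁻¹) • x =
          sA x • (u₂⁻¹ * u₁) • (sA x)⁻¹ • x := by
        simp only [← mul_smul]
        congr 1
        group
      rw [e3, trivA _ _ (R₀.mul_mem (R₀.inv_mem hu₂0) hu₁0), smul_inv_smul]
    · change (sB ((t x y)⁻¹ • y) * (sA (t x y • x))⁻¹)⁻¹ • (sB y * (sA x)⁻¹)⁻¹ • y = y
      rw [e₁, e₂]
      have e3 : (sA x * u₂⁻¹ * (sB y * u₁⁻¹)⁻¹)⁻¹ • (sB y * (sA x)⁻¹)⁻¹ • y =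
          sB y • (u₁⁻¹ * u₂) • (sB y)⁻¹ • y := by
        simp only [← mul_smul]
        congr 1
        group
      rw [e3, trivB _ _ (R₀.mul_mem (R₀.inv_mem hu₁0) hu₂0), smul_inv_smul]
  let δ : R → A → B → ℤ := fun r x y => c y * a r x - d (θ₁ x y) * b r (θ₂ x y)
  have hδmul : ∀ r s x y, δ (r * s) x y = δ r (s • x) y + δ s x y := by
    intro r s x y
    change c y * a (r * s) x - d (θ₁ x y) * b (r * s) (θ₂ x y) =
      (c y * a r (s • x) - d (θ₁ (s • x) y) * b r (θ₂ (s • x) y)) +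
      (c y * a s x - d (θ₁ x y) * b s (θ₂ x y))
    rw [eqv₁, eqv₂, ha, hb]
    ring
  have hδ0 : ∀ u ∈ R₀, ∀ x y, δ u x y = 0 := by
    intro u hu x y
    change c y * a u x - d (t x y • x) * b u ((t x y)⁻¹ • y) = 0
    rw [hm u hu (t x y) x y, sub_self]
  let β : A → B → ℤ := fun x y => δ (sA x) ((sA x)⁻¹ • x) y
  have hβ : ∀ r x y, β (r • x) y = δ r x y + β x y := by
    intro r x y
    obtain ⟨u, hu⟩ : ∃ u, u = (sA (r • x))⁻¹ * (r * sA x) := ⟨_, rfl⟩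
    have hu0 : u ∈ R₀ := by rw [hu]; exact hsA r x
    have e : sA (r • x) = r * sA x * u⁻¹ := by rw [hu]; group
    change δ (sA (r • x)) ((sA (r • x))⁻¹ • r • x) y = δ r x y + δ (sA x) ((sA x)⁻¹ • x) y
    have e2 : (sA (r • x))⁻¹ • r • x = (sA x)⁻¹ • x := by
      have : (sA (r • x))⁻¹ • r • x = u • (sA x)⁻¹ • x := by
        simp only [← mul_smul]
        congr 1
        rw [e]
        group
      rw [this, trivA u _ hu0]
    rw [e2, e, hδmul, hδ0 _ (R₀.inv_mem hu0), trivA u⁻¹ _ (R₀.inv_mem hu0), hδmul, smul_inv_smul,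
      add_zero]
  have hβθ : ∀ x y, ((θ₁ (θ₁ x y) (θ₂ x y), θ₂ (θ₁ x y) (θ₂ x y)) : A × B) = (x, y) :=
    fun x y => Prod.ext (hinv x y).1 (hinv x y).2
  let Θ : Equiv.Perm ((A × B) × ℤ) :=
    { toFun := fun z => ((θ₁ z.1.1 z.1.2, θ₂ z.1.1 z.1.2), z.2 - β z.1.1 z.1.2)
      invFun := fun z => ((θ₁ z.1.1 z.1.2, θ₂ z.1.1 z.1.2),
        z.2 + β (θ₁ z.1.1 z.1.2) (θ₂ z.1.1 z.1.2))
      left_inv := by
        rintro ⟨⟨x, y⟩, n⟩
        simp only [(hinv x y).1, (hinv x y).2]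
        rw [sub_add_cancel]
      right_inv := by
        rintro ⟨⟨x, y⟩, n⟩
        simp only [(hinv x y).1, (hinv x y).2]
        rw [add_sub_cancel_right] }
  refine ⟨⟨Θ, ?_⟩, ?_⟩
  · rintro ⟨x, y⟩ n
    change ((θ₁ x y, θ₂ x y), n - β x y) = ((θ₁ x y, θ₂ x y), 0 - β x y + n)
    congr 1
    ring
  · intro r x y n
    change ((θ₁ (r • x) y, θ₂ (r • x) y), n + c y * a r x - β (r • x) y) =
      ((θ₁ x y, r • θ₂ x y), n - β x y + d (θ₁ x y) * b r (θ₂ x y))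
    rw [eqv₁, eqv₂, hβ]
    congr 1
    change n + c y * a r x - (c y * a r x - d (θ₁ x y) * b r (θ₂ x y) + β x y) = _
    ring

end matching

end Q27.VR
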